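import Pool.Agent.helper22.OB.SpecZ

/-!
Row ZET3 of project ob (MP_baa4d7_al): product of the central characters of a class sum and of the
block idempotent, modulo `M`.
-/

set_option autoImplicit false

namespace Pool.Agent.OB

open Pool.Agent.helper58.DC Pool.Agent.DI Pool.Agent.GR

open Classical in
/-- Let `w` be the indicator function of the class of `g`, `ζ = zeta M χ`. For a radical chain `C` and `ψ ∈ IrrOn (nrm C)` the
number `cc ψ w * cc ψ ζ` is, modulo `M`, `omega χ g` if `b(ψ)^G` is the block of `χ` and `0` otherwise. -/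
def ZET3_stmt : Prop :=
  ∀ (p : ℕ) (M : Ideal (integralClosure ℤ ℂ)), Setup p M → ∀ (G : Type) [Group G] [Finite G], ∀ χ ∈ Irr G,
    ∀ (g : G) (C : Finset (Subgroup G)), IsRadical p C → ∀ ψ ∈ IrrOn (nrm C),
      InM M (cc ψ (fun x => if x ∈ conjugatesOf g then 1 else 0) * cc ψ (zeta M χ) -
        if Induces M ψ χ then omega χ g else 0)

theorem ZET3 (hZT3 : ZT3_stmt) (hC3 : C3_stmt) : ZET3_stmt := by
  intro p M hS G _ _ χ hχ g C hC ψ hψ
  obtain ⟨-, h2, -, h4⟩ := hC3 G
  rw [← (h2 ψ g).1]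
  have hint : IntAt M (omega ψ g) := IntAt.of_isIntegral hS (h4 (nrm C) ψ hψ g)
  have h3 := hZT3 p M hS G χ hχ C hC ψ hψ
  by_cases hI : Induces M ψ χ
  · rw [if_pos hI] at h3 ⊢
    have h5 : InM M (omega ψ g - omega χ g) := InM.of_mcong hS (hI g)
    have h6 : omega ψ g * cc ψ (zeta M χ) - omega χ g =
        omega ψ g * (cc ψ (zeta M χ) - 1) + (omega ψ g - omega χ g) := by ring
    rw [h6]
    exact InM.add hS (InM.mul_left hS hint h3) h5
  · rw [if_neg hI] at h3 ⊢
    rw [sub_zero] at h3 ⊢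
    exact InM.mul_left hS hint h3

end Pool.Agent.OB
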