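import Mathlib
import Pool.Agent.helper12.OB.SpecC
import Pool.Agent.helper22.OB.ZET3

/-!
# Project ob (MP_baa4d7_al): elements which are not fourth powers resp. cubes

TARGET (FINU). Let `(p, e) = (2, 4)` or `(3, 3)`, `O_p(G) = 1`, `B` the block of `χ`. Suppose that some `g ∈ G` with
`omega_B(g)` not in `M` is not an `e`-th power of an element of `G`. Then the alternating sum of the numbers
`k(N_G(C), B)` is divisible by `p`, and for every extension `E` and every `p`-subgroup `U` of `E / G` the sum over all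
`V ≥ U` and all `d` of the alternating sums of Dade's conjecture is divisible by `p`.

PROOF. `w = ind g` at the first puncture of the torus, `ζ = zeta M χ` (block idempotent) at the second one:
`To p w ζ 0` is congruent to `|G| aB omega_B(g)` (FT2) and to the sphere sum with the weights `w ∘ pow_e = 0`, `ζ ∘ pow_e`
(DBL, BR2 or BR3 with `n = 0`), which is `0`.

Rules: see `Pool/Agent/helper12/OB/SpecA.lean`; import `Pool.Agent.helper22.OB.SpecU`.
-/

set_option autoImplicit false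

namespace Pool.Agent.OB

open Pool.Agent.helper58.DC Pool.Agent.DI Pool.Agent.GR

open Classical in
/-- The indicator function of the conjugacy class of `g`. -/
noncomputable def ind {G : Type} [Group G] (g : G) : G → ℂ :=
  fun x => if x ∈ conjugatesOf g then 1 else 0

/-- **FT2** (short to medium). The torus sum. Proof: let `w = ind g`, `ζ = zeta M χ` (class functions, ZT0). TEX with `n = 0`:
`To p w ζ 0 = ∑_C (-1)^(|C|+1) (|nrm C| ∑_ψ cc ψ w * cc ψ ζ)` over the radical chains. CLA of GR with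
`F C = k C := Nat.card {ψ // ψ ∈ IrrOn (nrm C) ∧ Induces M ψ χ}` (invariant by the second item of CNJ) gives
`|G| aB = ∑_C (-1)^(|C|+1) |nrm C| k C`. Put `R C = ∑_ψ cc ψ w * cc ψ ζ - k C * omega χ g`, which is the sum over
`ψ ∈ IrrOn (nrm C)` (finite, B2 of DI) of `cc ψ w * cc ψ ζ - (if Induces M ψ χ then omega χ g else 0)`: it is `InM` by ZET3
(`ind g` is by definition the function of ZET3) and invariant by CNJ (`F a b = a * b`). CHM for `R`. -/
def FT2_stmt : Prop :=
  ∀ (p : ℕ) (M : Ideal (integralClosure ℤ ℂ)), Setup p M → ∀ (G : Type) [Group G] [Finite G],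
    IsOp p (⊤ : Subgroup G) ⊥ → ∀ χ ∈ Irr G, ∀ g : G,
    Cg p M G (To p (ind g) (zeta M χ) 0) ((Nat.card G : ℂ) * (aB p M χ : ℂ) * omega χ g)

/-- **UP2** (short). The core theorem. Proof: `w = ind g` and `ζ = zeta M χ` satisfy `ClF M` (ZT0; `w` has values `0`, `1`). If `x ^ e` is
conjugate to `g` then `g = (h x h⁻¹) ^ e`; so `w (x ^ e) = 0` for all `x`. `p = 3`: `Sp 3 (pw 3 w) (pw 3 ζ) 1 = 0` (all summands
are `0`), and BR3 with `n = 0` gives `Cg 3 M G 0 (To 3 w ζ 0)`. `p = 2`: `Sp 2 (pw 2 (pw 2 w)) (pw 2 (pw 2 ζ)) 1 = 0`,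
DBL (for `pw 2 w`, `pw 2 ζ`, `n = 1`) and BR2 with `n = 0` (`2 * 1 = 0 + 2`) give `Cg 2 M G 0 (To 2 w ζ 0)`. With FT2:
`|G| aB omega χ g = |G|_p u` with `InM M u`; `|G| = |G|_p m`, `p ∤ m`, so `m aB omega χ g` is `InM`; `omega χ g` is integral
(C3 of DI, IrrOn ⊤: TI of DC) and not `InM`, so `m aB` is `InM` (`InM.or`), and `p` divides the integer `m aB`
(`InM.natCast` for the absolute value), hence `aB`. -/
def UP2_stmt : Prop :=
  ∀ (p e : ℕ), (p = 2 ∧ e = 4 ∨ p = 3 ∧ e = 3) → ∀ (M : Ideal (integralClosure ℤ ℂ)),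
    Setup p M → ∀ (G : Type) [Group G] [Finite G], IsOp p (⊤ : Subgroup G) ⊥ → ∀ χ ∈ Irr G,
    ∀ g : G, ¬ InM M (omega χ g) → (∀ y : G, y ^ e ≠ g) → (p : ℤ) ∣ aB p M χ

/-- **PGU** (short). All extensions, `p`-subgroups `U`. Proof: by RE of DC the sum over `V` is `altSum (resE X U) p M χ d ⊤`. If
this is `0` for all `d` there is nothing to prove. Otherwise the block is stable under `resE X U` (ST of DC), and PGS for
`resE X U` (whose quotient `U` is a `p`-group, `A` is finite as a quotient of `E`) shows that the sum over `d` is congruent to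
`aB p M χ`. -/
def PGU_stmt : Prop :=
  ∀ (p : ℕ) [Fact p.Prime] (M : Ideal (integralClosure ℤ ℂ)) (G E A : Type) [Group G] [Group E]
    [Group A] [Finite G] [Finite E] (X : Extension G E A), ∀ χ ∈ Irr G, (p : ℤ) ∣ aB p M χ →
    ∀ U : Subgroup A, IsPGroup p U →
      (p : ℤ) ∣ ∑ᶠ d : ℤ, ∑ᶠ V : {V : Subgroup A // U ≤ V}, altSum X p M χ d V.1

/-- **FINU** (short; from UP2, PGU, PGA). -/
def FINU_stmt : Prop :=
  ∀ (p e : ℕ), (p = 2 ∧ e = 4 ∨ p = 3 ∧ e = 3) → ∀ (M : Ideal (integralClosure ℤ ℂ)),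
    Setup p M → ∀ (G : Type) [Group G] [Finite G], IsOp p (⊤ : Subgroup G) ⊥ → ∀ χ ∈ Irr G,
    (∃ g : G, ¬ InM M (omega χ g) ∧ ∀ y : G, y ^ e ≠ g) →
    (p : ℤ) ∣ aB p M χ ∧ ∀ (E A : Type) [Group E] [Group A] [Finite E] (X : Extension G E A),
      (∀ U : Subgroup A, IsPGroup p U →
        (p : ℤ) ∣ ∑ᶠ d : ℤ, ∑ᶠ V : {V : Subgroup A // U ≤ V}, altSum X p M χ d V.1) ∧
      (IsPGroup p A → ∀ U : Subgroup A, (p : ℤ) ∣ ∑ᶠ d : ℤ, altSum X p M χ d U)

end Pool.Agent.OB
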