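import Mathlib
import Pool.Agent.helper22.OB.SpecU

/-!
# Project ob (MP_baa4d7_al): the condition in terms of a defect group

TARGET (DG4). Let `D` be a defect group of the block of `χ` (in the min-max form of Brauer's theorem: `D` is a Sylow
`p`-subgroup of `C_G(x)`, `x` `p`-regular, `omega_B(x)` not in `M`, and `|D|` minimal) and let `z ∈ Z(D)` not be an `e`-th power of
an element of `D`. Then `g = z x` satisfies: `omega_B(g)` is not in `M` and `g` is not an `e`-th power in `G`.

Rules: see `Pool/Agent/helper12/OB/SpecA.lean`; import `Pool.Agent.helper22.OB.SpecD`. `pp p N = |N|_p`.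
-/

set_option autoImplicit false

namespace Pool.Agent.OB

open Pool.Agent.helper58.DC Pool.Agent.DI Pool.Agent.GR

section

variable {G : Type} [Group G]

/-- `x` is a `p`-regular element with `omega_B(x) ∉ M`, `D` is a Sylow `p`-subgroup of `C_G(x)`, and `|D|` is
minimal: `|D| ≤ |C_G(y)|_p` for all `y ∈ G` with `omega_B(y) ∉ M`. -/
structure DefAt (p : ℕ) (M : Ideal (integralClosure ℤ ℂ)) (χ : G → ℂ) (D : Subgroup G) (x : G) : Prop where
  reg : ¬ p ∣ orderOf x
  ne : ¬ InM M (omega χ x)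
  le : D ≤ Subgroup.centralizer {x}
  pgrp : IsPGroup p D
  card : Nat.card D = pp p (Subgroup.centralizer ({x} : Set G))
  min : ∀ y : G, ¬ InM M (omega χ y) → Nat.card D ≤ pp p (Subgroup.centralizer ({y} : Set G))

/-- powers for the product of the group algebra -/
noncomputable def cvp (z : G → ℂ) : ℕ → (G → ℂ)
  | 0 => dl
  | n + 1 => cv (cvp z n) z

end

/-- **PWN** (short to medium; from CVF, CCI, EXP of GR, B2 of DI). An element whose central characters are in the maximal ideal is nilpotent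
modulo `M`. Proof (first part of the proof of NIL of GR, `Pool/Agent/helper55/GR/NIL.lean`): call `u` null if `CF L u` and all
values are `InM`. By induction over finite subsets `T` of `IrrOn L` the product (`cv`) of all `z - cc θ z • dl`, `θ ∈ T`,
differs from `cvp z |T|` by a null function. For `T = IrrOn L` all `cc θ` of the product vanish, so it is `0` (EXP), and
`cvp z |T|` is null. -/
def PWN_stmt : Prop :=
  ∀ (p : ℕ) (M : Ideal (integralClosure ℤ ℂ)), Setup p M → ∀ (G : Type) [Group G] [Finite G]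
    (L : Subgroup G) (z : G → ℂ), CF L z → (∀ x, IntAt M (z x)) →
    (∀ θ ∈ IrrOn L, InM M (cc θ z)) → ∃ n : ℕ, ∀ x, InM M (cvp z n x)

open Classical in
/-- **BRP** (short to medium; from ORB of GR or from C6 of DI). The Brauer homomorphism for a `p`-subgroup, values in the local ring. Proof:
C6 of DI for `b • z`, `b • w`, `b ∉ M` a common denominator of the values of `z` and `w` (`IntAt.common`), and divide by
`b ^ 2`; or directly: `P` acts by simultaneous conjugation on the pairs with product `c`; the pairs which are not fixed lie in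
orbits of length divisible by `p`. -/
def BRP_stmt : Prop :=
  ∀ (p : ℕ) (M : Ideal (integralClosure ℤ ℂ)), Setup p M → ∀ (G : Type) [Group G] [Finite G]
    (P : Subgroup G), IsPGroup p P → ∀ z w : G → ℂ, (∀ x y, z (y * x * y⁻¹) = z x) →
    (∀ x y, w (y * x * y⁻¹) = w x) → (∀ x, IntAt M (z x)) → (∀ x, IntAt M (w x)) → ∀ c ∈ cz P,
    InM M (cv z w c -
      cv (fun x => if x ∈ cz P then z x else 0) (fun x => if x ∈ cz P then w x else 0) c)

/-- **DG1** (medium; from BRP, C3 of DI, CCI of GR, TI of DC). `omega_B` factors through the Brauer homomorphism of `D`. Proof: let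
`k = ind x`, so `cc χ (cv k w) = omega χ x * cc χ w` (CCI (2), C3 (2), `H = ⊤`). CLAIM: for every `y` either `InM M (omega χ y)` or
`InM M (cv k w y)`. Let `¬ InM M (omega χ y)`, `Q` a Sylow `p`-subgroup of `C_G(y)`, so `|D| ≤ |Q|` (`min`). By BRP for
`P = Q` (`y ∈ cz Q`) `cv k w y` is modulo `InM` the sum of the `k u * w (u⁻¹ y)` over the `u ∈ cz Q` with `u⁻¹ y ∈ cz Q`. Let
`k u ≠ 0`: `u = h x h⁻¹`, and `Q ≤ C_G(u)`, so `|Q| ≤ |C_G(u)|_p = |C_G(x)|_p = |D|`: `Q` and `h D h⁻¹` are Sylow subgroups of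
`C_G(u)`, and changing `h` by an element of `C_G(u)` we may suppose `Q = h D h⁻¹`. Then `h⁻¹ (u⁻¹ y) h ∈ cz D` and
`w (u⁻¹ y) = w (h⁻¹ (u⁻¹ y) h)` is `InM`. This proves the claim. Now
`cc χ (cv k w) = ∑_y (cv k w y) χ y / χ 1`, grouped by classes it is the sum over representatives `y` of the classes of
`cv k w y * omega χ y`, all `InM` (both factors are `IntAt`; compare `CCI_decomp` in `Pool/Agent/helper50/GR/CCI.lean`; or: split
`cv k w = f₁ + f₂`, `f₁` supported on the `y` with `¬ InM M (omega χ y)` (all values `InM`, so `cc χ f₁` is `InM` by CCI (3)) and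
`f₂` supported on those with `InM M (omega χ y)`, for which `cc χ f₂` is a combination of such `omega χ y`). So
`omega χ x * cc χ w` is `InM`, and `InM.or` with `¬ InM M (omega χ x)`. -/
def DG1_stmt : Prop :=
  ∀ (p : ℕ) (M : Ideal (integralClosure ℤ ℂ)), Setup p M → ∀ (G : Type) [Group G] [Finite G],
    ∀ χ ∈ Irr G, ∀ (D : Subgroup G) (x : G), DefAt p M χ D x → ∀ w : G → ℂ,
    (∀ x y, w (y * x * y⁻¹) = w x) → (∀ x, IntAt M (w x)) → (∀ y ∈ cz D, InM M (w y)) →
    InM M (cc χ w)

/-- **DG2** (medium; from DG1, PWN, BRP, C3, B2 of DI, CCI, CVF of GR, TI of DC). There is a character of `C_G(D)` whose block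
induces to the block of `χ`. Proof: write `z' x = z x` for `x ∈ cz D` and `0` otherwise; `cc θ z = cc θ z'` for
`θ ∈ IrrOn (cz D)`. Call a function good if it is a class function of `G` with `IntAt` values. (a) For good `z`, `w` the function
`(cv z w)' - cv z' w'` has values `InM` (BRP with `P = D`; outside of `cz D` both terms vanish) and is a class function of `cz D`;
so `cc θ (cv z w)` is modulo `InM` equal to `cc θ (cv z' w') = cc θ z * cc θ w` (CCI (2), (3) for `H = cz D`). (b) Suppose that no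
`θ ∈ IrrOn (cz D)` satisfies `Induces M θ χ`. For each `θ` there is `u` with `¬ InM M (omega θ u - omega χ u)` (both integral, C3;
`InM.mcong`); put `g_θ = ind u - omega θ u • dl`, good, `cc θ g_θ = 0`, `¬ InM M (cc χ g_θ)` (C3 (2), CCI (1)). Let `g` be the product
(`cv`) of all `g_θ` (induction over the finite subsets `T` of `IrrOn (cz D)`: good `g` with `¬ InM M (cc χ g)` and
`InM M (cc θ g)` for `θ ∈ T`; `cc χ` is multiplicative, CCI (2) with `H = ⊤`, and (a)). (c) By PWN for `L = cz D`, `z = g'`: some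
`cvp g' n` has values `InM`. By (a) and induction `(cvp g n)' - cvp g' n` has values `InM` on `cz D`. So `w = cvp g n` satisfies the
hypothesis of DG1 and `InM M (cc χ w)`, `cc χ w = (cc χ g) ^ n`; `InM.of_pow` gives `InM M (cc χ g)`, a contradiction. -/
def DG2_stmt : Prop :=
  ∀ (p : ℕ) (M : Ideal (integralClosure ℤ ℂ)), Setup p M → ∀ (G : Type) [Group G] [Finite G],
    ∀ χ ∈ Irr G, ∀ (D : Subgroup G) (x : G), DefAt p M χ D x → ∃ θ ∈ IrrOn (cz D), Induces M θ χ

/-- **DGN** (medium). Conjugates of `z x` in `C_G(D)`. Notation: `S g` is the set of the conjugates of `g` which lie in `cz D`. Proof: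
`x` and `z` commute and are powers of `z x` (orders prime to each other). (1) Let `y = h (z x) h⁻¹ ∈ cz D`. Then `D` and `h D h⁻¹` are
contained in `C_G(y)`, and `C_G(y) = h C_G(z x) h⁻¹ ≤ h C_G(x) h⁻¹`, so both are Sylow `p`-subgroups of `C_G(y)`; there is
`c ∈ C_G(y)` with `c h D h⁻¹ c⁻¹ = D`; `n = c h ∈ nz D` and `n (z x) n⁻¹ = y`. (2) So `S (z x)` and `S x` (the case `z = 1`) are
the orbits of `z x` and `x` under conjugation by `N = nz D`, with stabilisers `N_{zx} ≤ N_x`, and the map
`n (z x) n⁻¹ ↦ n x n⁻¹` is well defined; the number of the `y ∈ S (z x)` over a given `x' = n x n⁻¹` is `m = |N_x : N_{zx}|`, and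
these `y` are of the form `z' x'` with `z' = n₁ z n₁⁻¹ ∈ D`, central in `D`. As `D ≤ N_{zx}` and `D` is a Sylow `p`-subgroup of `C_G(x)`
(`N_x ≤ C_G(x)`), `m` divides `|N_x| / |D|`, a divisor of `|C_G(x)| / |D|`, so `p ∤ m`. -/
def DGN_stmt : Prop :=
  ∀ (p : ℕ) [Fact p.Prime] (G : Type) [Group G] [Finite G] (D : Subgroup G) (x z : G),
    ¬ p ∣ orderOf x → D ≤ Subgroup.centralizer {x} → IsPGroup p D →
    Nat.card D = pp p (Subgroup.centralizer ({x} : Set G)) → z ∈ D → (∀ d ∈ D, z * d = d * z) →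
    ∃ m : ℕ, ¬ p ∣ m ∧ (∀ x' ∈ cz D, x' ∈ conjugatesOf x →
      Nat.card {z' : G // z' ∈ D ∧ (∀ d ∈ D, z' * d = d * z') ∧ z' * x' ∈ conjugatesOf (z * x)} = m) ∧
    ∀ y ∈ cz D, y ∈ conjugatesOf (z * x) → ∃ z' ∈ D, ∃ x' ∈ cz D, (∀ d ∈ D, z' * d = d * z') ∧
      x' ∈ conjugatesOf x ∧ y = z' * x'

/-- **DG3** (medium; from DGN, CCI of GR, C3, B2 of DI, SCH of GR). Proof: `m` from DGN. For `x' ∈ cz D` conjugate to `x` let `Z x'` be the set of the `z'` in the first
item of DGN (`m` elements). The pairs `(x', z')` correspond to the `y = z' x' ∈ cz D` conjugate to `z x` (second item; uniqueness: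
`z'` is the `p`-part and `x'` the `p`-regular part of `y`). `z' ∈ cz D` is central in `cz D` and `θ (z' x') = (θ z' / θ 1) θ x'`
(SCH with central `z'`: the sum over `t` is `|H| θ (x' z')`), and `ε = θ z' / θ 1` is an algebraic integer (`omega`-type, C3, or
directly) with `ε ^ (p ^ a) = 1` for some `a`, so `ε - 1` is `InM` (`(ε - 1) ^ (p ^ a)` is congruent to `ε ^ (p ^ a) - 1 = 0` modulo `p`,
`InM.of_pow`). Let `F x' = ∑_{z' ∈ Z x'} θ z' / θ 1` for `x' ∈ cz D` conjugate to `x` and `F = 0` otherwise, and let `f` be the indicator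
function of these `x'`. Both are class functions of `cz D`, `cc θ F = omega θ (z x)`, `cc θ f = omega θ x`, and all values of
`F - m • f` are `InM`; so `omega θ (z x) - m * omega θ x` is `InM` by CCI (1), (3). -/
def DG3_stmt : Prop :=
  ∀ (p : ℕ) (M : Ideal (integralClosure ℤ ℂ)), Setup p M → ∀ (G : Type) [Group G] [Finite G]
    (D : Subgroup G) (x z : G), ¬ p ∣ orderOf x → D ≤ Subgroup.centralizer {x} → IsPGroup p D →
    Nat.card D = pp p (Subgroup.centralizer ({x} : Set G)) → z ∈ D → (∀ d ∈ D, z * d = d * z) →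
    ∀ θ ∈ IrrOn (cz D), ∃ m : ℕ, ¬ p ∣ m ∧ InM M (omega θ (z * x) - m * omega θ x)

/-- **DG4** (short to medium; from DG2, DG3, C3 of DI, TI of DC). Proof: `g = z x`. `θ` from DG2: `omega θ u - omega χ u` is `InM` for all `u`. By DG3
`omega χ g` is congruent to `m * omega χ x`, which is not `InM` (`InM.natCast`, `InM.or`). Suppose `y ^ e = z x`, `e` a power of `p`. Let
`y = y₁ y₂`, `y₁` the `p`-part, `y₂` the `p`-regular part (powers of `y`). `y₁ ^ e = z`, `y₂ ^ e = x` (uniqueness of the decomposition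
of `z x`). So `y₁` commutes with `z` and `x`, i.e. `y₁ ∈ C = C_G(z) ∩ C_G(x)`, `D ≤ C ≤ C_G(x)`, so `D` is a Sylow `p`-subgroup of
`C`; as `y₁` is a `p`-element there is `c ∈ C` with `c y₁ c⁻¹ ∈ D`, and `(c y₁ c⁻¹) ^ e = c z c⁻¹ = z`, a contradiction. -/
def DG4_stmt : Prop :=
  ∀ (p a : ℕ) (M : Ideal (integralClosure ℤ ℂ)), Setup p M → ∀ (G : Type) [Group G] [Finite G],
    ∀ χ ∈ Irr G, ∀ (D : Subgroup G) (x : G), DefAt p M χ D x →
    ∀ z ∈ D, (∀ d ∈ D, z * d = d * z) → (∀ y ∈ D, y ^ (p ^ a) ≠ z) →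
    ¬ InM M (omega χ (z * x)) ∧ ∀ y : G, y ^ (p ^ a) ≠ z * x

/-- **DGA** (short). A nontrivial commutative `p`-group has an element which is not a `p ^ a`-th power, `a ≥ 1`: the homomorphism `y ↦ y ^ p ^ a` has a
nontrivial kernel (elements of order `p`), so it is not surjective. -/
def DGA_stmt : Prop :=
  ∀ (p a : ℕ) [Fact p.Prime] (G : Type) [Group G] [Finite G] (D : Subgroup G), IsPGroup p D → D ≠ ⊥ →
    (∀ c ∈ D, ∀ d ∈ D, c * d = d * c) → 1 ≤ a → ∃ z ∈ D, ∀ y ∈ D, y ^ (p ^ a) ≠ z

end Pool.Agent.OB
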