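import Pool.Agent.helper22.OB.Fin
import Pool.Agent.helper5.OB.PWN
import Pool.Agent.helper5.OB.BRP
import Pool.Agent.helper52.OB.DG1
import Pool.Agent.helper89.OB.DG2
import Pool.Agent.helper50.OB.DGN
import Pool.Agent.helper89.OB.DG3
import Pool.Agent.helper89.OB.DG4

/-!
# Project ob (MP_baa4d7_al): assembly
-/

set_option autoImplicit false

namespace Pool.Agent.OB.All

open Pool.Agent.helper58.DC Pool.Agent.DI Pool.Agent.GR Pool.Agent.OB Pool.Agent.M23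

theorem uBRP : BRP_stmt := BRP Pool.Agent.DR.AllDI.iC6
theorem uPWN : PWN_stmt :=
  PWN Pool.Agent.GR.All.dCVF Pool.Agent.GR.All.dCCI Pool.Agent.GR.All.dEXP Pool.Agent.GR.All.dB2
theorem uDG1 : DG1_stmt :=
  DG1 uBRP Pool.Agent.DR.AllDI.iC3 Pool.Agent.GR.All.dCCI Pool.Agent.GR.All.dTI
theorem uDG2 : DG2_stmt :=
  DG2 uDG1 uPWN uBRP Pool.Agent.DR.AllDI.iC3 Pool.Agent.GR.All.dB2 Pool.Agent.GR.All.dCCI
    Pool.Agent.GR.All.dCVF Pool.Agent.GR.All.dTI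
theorem uDG3 : DG3_stmt :=
  DG3 DGN Pool.Agent.GR.All.dCCI Pool.Agent.DR.AllDI.iC3 Pool.Agent.GR.All.dB2
    Pool.Agent.GR.All.dSCH
theorem uDG4 : DG4_stmt := DG4 uDG2 uDG3 Pool.Agent.DR.AllDI.iC3 Pool.Agent.GR.All.dTI

theorem main (p e : ℕ) (hpe : p = 2 ∧ e = 4 ∨ p = 3 ∧ e = 3)
    (M : Ideal (integralClosure ℤ ℂ)) (hM : M.IsMaximal) (hp : (p : integralClosure ℤ ℂ) ∈ M)
    (G : Type) [Group G] [Finite G] (hG : IsOp p (⊤ : Subgroup G) ⊥) (χ : G → ℂ) (hχ : χ ∈ Irr G)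
    (h : Cond p e M χ) :
    (p : ℤ) ∣ blockSum p M χ ∧ ∀ (E A : Type) [Group E] [Group A] [Finite E] (X : Extension G E A),
      (∀ U : Subgroup A, IsPGroup p U →
        (p : ℤ) ∣ ∑ᶠ d : ℤ, ∑ᶠ V : {V : Subgroup A // U ≤ V}, altSum X p M χ d V.1) ∧
      (IsPGroup p A → ∀ U : Subgroup A, (p : ℤ) ∣ ∑ᶠ d : ℤ, altSum X p M χ d U) := by
  have hpr : p.Prime := by
    rcases hpe with ⟨rfl, -⟩ | ⟨rfl, -⟩
    · exact Nat.prime_two
    · exact Nat.prime_three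
  exact Fin_main uDG4 p e hpe M ⟨hpr, hM, hp⟩ G hG χ hχ h

end Pool.Agent.OB.All
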