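import Pool.Agent.helper22.OB.FinG
import Pool.Agent.helper45.OB.FXC

/-!
# Project ob (MP_baa4d7_al): assembly of the theorem under the condition on the powers of the roots
-/

set_option autoImplicit false

namespace Pool.Agent.OB.AllG

open Pool.Agent.helper58.DC Pool.Agent.DI Pool.Agent.GR Pool.Agent.OB Pool.Agent.OB.AllU

theorem gHH1 : HH1_stmt := HH1 uWCJ
theorem gHH2 : HH2_stmt := HH2 uODV uWCD uWCJ
theorem gSUP : SUP_stmt :=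
  SUP uLSB Pool.Agent.GR.All.dCVF Pool.Agent.GR.All.dCCI Pool.Agent.GR.All.dB2
theorem gZT4 : ZT4_stmt := ZT4 Pool.Agent.GR.All.dGLI Pool.Agent.GR.All.dGLP
theorem gSGL : SGL_stmt := SGL gSUP uKRW gZT4
theorem gHH3 : HH3_stmt := HH3 gSGL gHH1
theorem gZT1 : ZT1_stmt := ZT1 Pool.Agent.GR.All.dBR0 Pool.Agent.GR.All.dBCL
theorem gFXC : FXC_stmt := FXC uODV
theorem gUP3 : UP3_stmt :=
  UP3 (DBL uLDB uBLK) (BR2 uLDB uTW2) (BR3 uLDB uTW3) uFT2 uZT0 gZT1 Pool.Agent.DR.AllDI.iC3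
    Pool.Agent.GR.All.dTI gHH1 gHH2 gHH3 gFXC
theorem gDG6 : DG6_stmt :=
  DG6 Pool.Agent.OB.All.uDG2 Pool.Agent.OB.All.uDG3 Pool.Agent.DR.AllDI.iC3

theorem main (p e : ℕ) (hpe : p = 2 ∧ e = 4 ∨ p = 3 ∧ e = 3)
    (M : Ideal (integralClosure ℤ ℂ)) (hM : M.IsMaximal) (hp : (p : integralClosure ℤ ℂ) ∈ M)
    (G : Type) [Group G] [Finite G] (hG : IsOp p (⊤ : Subgroup G) ⊥) (χ : G → ℂ) (hχ : χ ∈ Irr G)
    (h : Pool.Agent.M23g.Cond p e M χ) (E A : Type) [Group E] [Group A] [Finite E]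
    (X : Extension G E A) (W : Subgroup A) (hW : IsPGroup p W) (U : Subgroup A) (hU : U ≤ W) :
    (p : ℤ) ∣ ∑ᶠ d : ℤ, ∑ᶠ V : {V : Subgroup A // V ⊓ W = U}, altSum X p M χ d V.1 := by
  have hpr : p.Prime := by
    rcases hpe with ⟨rfl, -⟩ | ⟨rfl, -⟩
    · exact Nat.prime_two
    · exact Nat.prime_three
  exact FinG_main gUP3 DG5 gDG6 p e hpe M ⟨hpr, hM, hp⟩ G hG χ hχ h E A X W hW U hU

end Pool.Agent.OB.AllG
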