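import Mathlib
import Pool.Agent.helper83.GR.Spec

/-!
# Project ob (MP_baa4d7_al, surface groups): the weight function, specification

`M` is a maximal ideal of the ring of algebraic integers with `p ∈ M` (`Setup p M`); `IntAt M z`: `z` is a
fraction `a / b` of algebraic integers with `b ∉ M`; `InM M z`: the same with `a ∈ M`
(`Pool/Agent/helper83/GR/Ari.lean` has all rules of calculation: `IntAt.add`, `InM.mul_left`, `InM.or`,
`IntAt.common`, ...). `cc ψ z = (∑ z x * ψ x) / ψ 1`, `cv` is the product of the group algebra (DI), `PEl p y`: `y` is a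
`p`-element, `PReg p v`: the order of `v` is prime to `p`, `CF H z`: `z` is a class function of `H` extended by zero,
`Blk M χ H`: the `ψ ∈ IrrOn H` with `b(ψ)^G = B`, `eS H S` the idempotent of the set `S` of characters (GR).

WEIGHT: `zeta M χ` is the block idempotent of the block `B` of `χ` (a class function of `G`).

RULES. File `Pool/Agent/<seat>/OB/XX.lean` with

  import Pool.Agent.helper22.OB.SpecZ
  set_option autoImplicit false
  namespace Pool.Agent.OB
  open Pool.Agent.helper58.DC Pool.Agent.DI Pool.Agent.GR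
  theorem XX (hYY : YY_stmt) ... : XX_stmt := ...
  end Pool.Agent.OB

auxiliary lemmas prefixed `XX_`. Any statement of GR, DI (SpecA-SpecD), DC (Spec1) may be taken as a hypothesis
(`(hBR0 : Pool.Agent.GR.BR0_stmt)`, ...) also if it is not listed; all of them are proved
(`Pool/Agent/helper83/GR/All.lean`: `dBR0`, `dEIN`, `dIDM`, ...).
-/

set_option autoImplicit false

namespace Pool.Agent.OB

open Pool.Agent.helper58.DC Pool.Agent.DI Pool.Agent.GR

/-- The block idempotent of the block of `χ`, as a function on `G`. -/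
noncomputable def zeta {G : Type} [Group G] (M : Ideal (integralClosure ℤ ℂ)) (χ : G → ℂ) : G → ℂ :=
  eS (⊤ : Subgroup G) (Blk M χ ⊤)

open Classical in
/-- **ZT0** (short; from IDM, EIN, BCL of GR, TI of DC). `IDM` and `EIN` for `H = ⊤`, `S = Blk M χ ⊤` (a subset of `IrrOn ⊤`, a
union of blocks by BCL); `IrrOn ⊤ = Irr G` by TI. -/
def ZT0_stmt : Prop :=
  ∀ (p : ℕ) (M : Ideal (integralClosure ℤ ℂ)), Setup p M → ∀ (G : Type) [Group G] [Finite G] (χ : G → ℂ),
    (∀ x y, zeta M χ (y * x * y⁻¹) = zeta M χ x) ∧ (∀ x, IntAt M (zeta M χ x)) ∧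
    ∀ χ' ∈ Irr G, cc χ' (zeta M χ) = if Induces M χ' χ then 1 else 0

/-- **ZT1** (short; from BR0, BCL of GR). `zeta M χ g = Sf S 1 g / |G|` for `S = Blk M χ ⊤`. Write `g = y' v'` with a
`p`-element `y'` and a `p`-regular `v'`, both powers of `g` (see PPT of GR and its proof, `Pool/Agent/helper9/GR/PPT.lean`);
`y' ≠ 1` since `p` divides the order of `g`. BR0 with `y = v = 1` (`h⁻¹ 1 h = 1 ≠ y'`) gives `Sf S 1 g = 0`. -/
def ZT1_stmt : Prop :=
  ∀ (p : ℕ) (M : Ideal (integralClosure ℤ ℂ)), Setup p M → ∀ (G : Type) [Group G] [Finite G] (χ : G → ℂ)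
    (g : G), p ∣ orderOf g → zeta M χ g = 0

/-- **ZTI** (short to medium; from ORB or BRH, CVF of GR). The functions `z` which are `InM` at all `g` with a property which
is inherited: let `y` be a `p`-element, `g` an element which commutes with `y`, `z` a class function with
`InM M (z x)` for all `x` which commute with `y`. Then `InM M (cv z w g)`: BRH for `H = ⊤`: `cv z w g` differs by `InM` from
`cv (rs y z) (rs y w) g = ∑ᶠ x, rs y z x * rs y w (x⁻¹ * g)`, and all `rs y z x` are `InM`. -/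
def ZTI_stmt : Prop :=
  ∀ (p : ℕ) (M : Ideal (integralClosure ℤ ℂ)), Setup p M → ∀ (G : Type) [Group G] [Finite G]
    (z w : G → ℂ), (∀ x y, z (y * x * y⁻¹) = z x) → (∀ x y, w (y * x * y⁻¹) = w x) →
    (∀ x, IntAt M (z x)) → (∀ x, IntAt M (w x)) → ∀ y : G, PEl p y →
    (∀ x, Commute y x → InM M (z x)) → ∀ g, Commute y g → InM M (cv z w g)

/-- **ZT2** (medium; from ZT0, ZTI, EXP, CCI, CVF of GR, OI, TI, OM of DC, C3 of DI). Let `ζ = zeta M χ`, `k` the indicator function of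
the class `conjugatesOf x` (so `cc θ k = omega θ x`, C3 of DI, an algebraic integer, OI). Suppose `¬ InM M (ζ g)`, `y` commutes with
`g`, `PEl p y`, `y ^ e ≠ 1`. Call a function `f` small if `CF ⊤ f`, all values are `IntAt` and `InM M (f u)` for all `u` which
commute with `y`. `k` is small: if `u` commutes with `y` then `u` is not conjugate to `x`, for otherwise a conjugate `y₁` of `y`
would commute with `x`, and `y₁ ^ e = 1`; so `k u = 0`. By ZTI (and `cv` commutative on class functions) `cv f w` is small for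
`f` small and `w` a class function with `IntAt` values. CLAIM: for every finite `T ⊆ Blk M χ ⊤` there are `a` with `IntAt M a`,
`¬ InM M a` and a small `f` with `cc θ f = 0` for `θ ∈ IrrOn ⊤ \ Blk M χ ⊤` and `cc θ f = a` for `θ ∈ T`. `T = ∅`: `a = 1`,
`f = 0`. Step from `T` to `T ∪ {φ}`: let `c = omega φ x`; `¬ InM M c` (`Induces M φ χ`: `c - omega χ x` is `InM`). Put
`a' = a * c` and `f' = a • (cv k ζ) + c • (cv f ζ) - cv f (cv k ζ)`: for `θ ∈ Blk M χ ⊤` (`cc θ ζ = 1`)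
`cc θ f' = a ω + c F - F ω` with `ω = omega θ x`, `F = cc θ f`; `a c - cc θ f' = (a - F) (c - ω)`, which is `0` for `θ ∈ T` and for
`θ = φ`; for `θ ∉ Blk` it is `0` as `cc θ ζ = 0`. For `T = Blk M χ ⊤` EXP gives `f = a • ζ`, so `InM M (a * ζ g)`, and `InM.or`
gives a contradiction. -/
def ZT2_stmt : Prop :=
  ∀ (p : ℕ) (M : Ideal (integralClosure ℤ ℂ)), Setup p M → ∀ (G : Type) [Group G] [Finite G], ∀ χ ∈ Irr G,
    ∀ (e : ℕ) (x : G), ¬ InM M (omega χ x) → (∀ y, Commute y x → PEl p y → y ^ e = 1) →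
    ∀ g, ¬ InM M (zeta M χ g) → ∀ y, Commute y g → PEl p y → y ^ e = 1

open Classical in
/-- **ZT3** (short to medium; from ZT0, C3, C9 of DI, OM, IM of DC). Let `ζ = zeta M χ`. By `IntAt.common` there is an algebraic integer
`b ∉ M` with `b * ζ x` integral for all `x`; `z = b • ζ` satisfies `IsZO z`. C9: `χ' ∈ Irr G` with `Induces M ψ χ'`. C3 (third item):
`Mcong M (cc ψ z) (cc χ' z)`, `cc ψ z = b * cc ψ ζ`; so `b * (cc ψ ζ - cc χ' ζ)` is in `M` and `InM M (cc ψ ζ - cc χ' ζ)`. By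
ZT0 `cc χ' ζ` is `1` if `Induces M χ' χ` and `0` otherwise, and `Induces M χ' χ ↔ Induces M ψ χ` (`Mcong` is symmetric and
transitive: `Induces M ψ χ` and `Induces M ψ χ'` give `omega χ' g - omega χ g ∈ M`). -/
def ZT3_stmt : Prop :=
  ∀ (p : ℕ) (M : Ideal (integralClosure ℤ ℂ)), Setup p M → ∀ (G : Type) [Group G] [Finite G], ∀ χ ∈ Irr G,
    ∀ C : Finset (Subgroup G), IsRadical p C → ∀ ψ ∈ IrrOn (nrm C),
      InM M (cc ψ (zeta M χ) - if Induces M ψ χ then 1 else 0)

/-- **ZT4** (short; from GLI, GLP of GR). Let `n = |G|`. There is an automorphism `σ` of the field of complex numbers with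
`σ ζ = ζ ^ s` for all `ζ` with `ζ ^ n = 1`: `Pool/Agent/helper72/SJ/VGA.lean` (`VGA_ext`, `VGA_cyc`: copy the two lemmas with
the prefix `ZT4_`, they use only Mathlib; all `n`-th roots of unity are powers of a primitive one). Then
`galMap σ ψ ∈ IrrOn H` (GLI) and `galMap σ ψ g = σ (ψ g) = ψ (g ^ s)` (GLP). -/
def ZT4_stmt : Prop :=
  ∀ (G : Type) [Group G] [Finite G] (s : ℕ), s.Coprime (Nat.card G) → ∀ (H : Subgroup G), ∀ ψ ∈ IrrOn H,
    (fun g => ψ (g ^ s)) ∈ IrrOn H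

/-- **ZT5** (short; from ZT4, B2 of DI). Choose `s` with `k * s ≡ 1` modulo `n = |G|`. `P ψ = fun g => ψ (g ^ s)` maps `IrrOn H` to
itself (ZT4) and is a bijection (its inverse is `ψ ↦ fun g => ψ (g ^ k)`, as `g ^ (k * s) = g`). `cc ψ (fun g => z (g ^ k)) =
cc (P ψ) z` by the substitution `x = g ^ k`, `g = x ^ s`, and `P ψ 1 = ψ 1`. -/
def ZT5_stmt : Prop :=
  ∀ (G : Type) [Group G] [Finite G] (k : ℕ), k.Coprime (Nat.card G) → ∀ (H : Subgroup G) (z : G → ℂ)
    (F : ℂ → ℂ → ℂ), ∑ᶠ ψ ∈ IrrOn H, F (ψ 1) (cc ψ fun g => z (g ^ k)) = ∑ᶠ ψ ∈ IrrOn H, F (ψ 1) (cc ψ z)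

/-- **ZT6** (short). Write `|G| = p ^ a * m`, `p ∤ m`; choose `k ≡ p` modulo `m`, `k ≡ 1` modulo `p ^ a`
(`Nat.chineseRemainder`). If `p` does not divide the order of `g` then the order divides `m`. -/
def ZT6_stmt : Prop :=
  ∀ (p : ℕ), p.Prime → ∀ (G : Type) [Group G] [Finite G], ∃ k : ℕ, k.Coprime (Nat.card G) ∧
    ∀ g : G, ¬ p ∣ orderOf g → g ^ k = g ^ p

open Classical in
/-- **ZETA** (short; from ZT0, ZT1, ZT2, ZT3, ZT5, ZT6). `ζ = zeta M χ`, `ζ' g = ζ (g ^ k)` with `k` from ZT6. Only the item on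
`b` is left. If `p` does not divide the order of `b ^ e` then `(b ^ e) ^ k = (b ^ e) ^ p = b ^ (e * p)` and the difference is
`0`. If `p` divides the order of `b ^ e` then it divides the order of `(b ^ e) ^ k`, so `ζ' (b ^ e) = 0` by ZT1. Suppose
`¬ InM M (ζ (b ^ (e * p)))`. By ZT1 `p` does not divide the order of `b ^ (e * p)`. Let `y` be the `p`-part of `b` (a power
of `b`, `b = y v`, `v` `p`-regular power of `b`). By ZT2 `y ^ e = 1`, so `b ^ e = v ^ e` is `p`-regular, a contradiction. -/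
def ZETA_stmt : Prop :=
  ∀ (p : ℕ) (M : Ideal (integralClosure ℤ ℂ)), Setup p M → ∀ (G : Type) [Group G] [Finite G], ∀ χ ∈ Irr G,
    ∀ (e : ℕ) (x : G), ¬ InM M (omega χ x) → (∀ y, Commute y x → PEl p y → y ^ e = 1) →
    ∃ ζ ζ' : G → ℂ, (∀ x y, ζ (y * x * y⁻¹) = ζ x) ∧ (∀ x y, ζ' (y * x * y⁻¹) = ζ' x) ∧
      (∀ x, IntAt M (ζ x)) ∧ (∀ x, IntAt M (ζ' x)) ∧
      (∀ b, InM M (ζ (b ^ (e * p)) - ζ' (b ^ e))) ∧
      (∀ g, p ∣ orderOf g → ζ g = 0 ∧ ζ' g = 0) ∧
      (∀ χ' ∈ Irr G, cc χ' ζ = if Induces M χ' χ then 1 else 0) ∧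
      (∀ C : Finset (Subgroup G), IsRadical p C → ∀ ψ ∈ IrrOn (nrm C),
        InM M (cc ψ ζ - if Induces M ψ χ then 1 else 0)) ∧
      ∀ (H : Subgroup G) (F : ℂ → ℂ → ℂ),
        ∑ᶠ ψ ∈ IrrOn H, F (ψ 1) (cc ψ ζ') = ∑ᶠ ψ ∈ IrrOn H, F (ψ 1) (cc ψ ζ)

end Pool.Agent.OB
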