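import Pool.Agent.helper22.OB.SpecG

set_option autoImplicit false

/-! # Row ob:DG6 (MP_baa4d7_al) -/

namespace Pool.Agent.OB

open Pool.Agent.helper58.DC Pool.Agent.DI Pool.Agent.GR

theorem DG6 (hDG2 : DG2_stmt) (hDG3 : DG3_stmt) (hC3 : C3_stmt) : DG6_stmt := by
  intro p M hS G _ _ χ hχ D x hD z hz hzc
  have hp : Fact p.Prime := ⟨hS.pr⟩
  obtain ⟨θ, hθ, hind⟩ := hDG2 p M hS G χ hχ D x hD
  obtain ⟨-, -, -, c4⟩ := hC3 G
  have hcong : ∀ u, InM M (omega θ u - omega χ u) := by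
    intro u
    obtain ⟨c, hc, e⟩ := hind u
    rw [e]
    exact InM.coe hS hc
  obtain ⟨m, hm, h3⟩ := hDG3 p M hS G D x z hD.reg hD.le hD.pgrp hD.card hz hzc θ hθ
  intro h
  have h4 : InM M (omega θ (z * x)) := by
    have := InM.add hS (hcong (z * x)) h
    rw [sub_add_cancel] at this
    exact this
  have h5 : InM M ((m : ℂ) * omega θ x) := by
    have := InM.sub hS h4 h3
    rw [sub_sub_cancel] at this
    exact this
  rcases InM.or hS (IntAt.natCast hS m) (IntAt.of_isIntegral hS (c4 _ θ hθ x)) h5 with h6 | h6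
  · exact hm ((InM.natCast hS m).1 h6)
  · apply hD.ne
    have := InM.sub hS h6 (hcong x)
    rw [sub_sub_cancel] at this
    exact this

end Pool.Agent.OB
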