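import Pool.Agent.helper22.OB.SpecG

set_option autoImplicit false

/-!
Row HH2 of OB: divisibility of the parts of the sphere sum.
-/

namespace Pool.Agent.OB

open Pool.Agent.helper58.DC Pool.Agent.DI Pool.Agent.GR

theorem HH2_qq {G : Type} [Group G] (y : G) (n : ℕ) (z : Fin n → G) :
    qq (fun j => y * z j * y⁻¹) = y * qq z * y⁻¹ := by
  unfold qq
  induction n with
  | zero => simp
  | succ n ih =>
    rw [List.ofFn_succ, List.ofFn_succ, List.prod_cons, List.prod_cons, ih (fun j => z j.succ)]
    group

theorem HH2_tp {G : Type} [Group G] (p : ℕ) (x y : G) : tp p (y * x * y⁻¹) = tp p x := by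
  unfold tp
  have h : (y * x * y⁻¹) ^ p = 1 ↔ x ^ p = 1 := by
    rw [conj_pow]
    constructor
    · intro h1
      have h2 : x ^ p = y⁻¹ * (y * x ^ p * y⁻¹) * y := by group
      rw [h2, h1]
      group
    · intro h1
      rw [h1]
      group
  by_cases hx : x ^ p = 1
  · rw [if_pos hx, if_pos (h.2 hx)]
  · rw [if_neg hx, if_neg (fun h' => hx (h.1 h'))]

/-- conjugation of tuples -/
noncomputable def HH2_act {G : Type} [Group G] (n : ℕ) (N : Subgroup G) :
    N →* Equiv.Perm (Fin n → G) where
  toFun y :=
    { toFun := fun z j => y.1 * z j * (y.1)⁻¹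
      invFun := fun z j => (y.1)⁻¹ * z j * y.1
      left_inv := fun z => by
        funext j
        group
      right_inv := fun z => by
        funext j
        group }
  map_one' := by
    ext z j
    simp
  map_mul' x y := by
    ext z j
    simp only [Equiv.coe_fn_mk, Equiv.Perm.coe_mul, Function.comp_apply, Subgroup.coe_mul]
    group

theorem HH2 (hODV : ODV_stmt) (hWCD : WCD_stmt) (hWCJ : WCJ_stmt) : HH2_stmt := by
  intro p M hS G _ _ f₂ hf n s
  have : Fact p.Prime := ⟨hS.pr⟩
  classical
  let I : AddSubgroup ℂ :=
    { carrier := {w | IntAt M w}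
      zero_mem' := IntAt.zero hS
      add_mem' := fun {a b} ha hb => IntAt.add hS ha hb
      neg_mem' := fun {a} ha => IntAt.neg ha }
  set N : Subgroup G := Subgroup.centralizer ({s} : Set G) with hN
  have hcomm : ∀ y : N, y.1 * s = s * y.1 := fun y => by
    have := Subgroup.mem_centralizer_iff.1 y.2 s (Set.mem_singleton s)
    exact this.symm
  have hcl : ∀ (y : N) (z : Fin n → G),
      Subgroup.closure (Set.range (HH2_act n N y z) ∪ {s}) =
        cj y.1 (Subgroup.closure (Set.range z ∪ {s})) := by
    intro y z
    unfold cj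
    rw [MonoidHom.map_closure]
    congr 1
    rw [Set.image_union, ← Set.range_comp, Set.image_singleton]
    congr 1
    · show ({s} : Set G) = {y.1 * s * (y.1)⁻¹}
      rw [hcomm y]
      simp
  have hfix : ∀ (y : N) (z : Fin n → G), HH2_act n N y z = z ↔
      y.1 ∈ cz (Subgroup.closure (Set.range z ∪ {s})) := by
    intro y z
    unfold cz
    rw [Subgroup.mem_centralizer_iff]
    constructor
    · intro h k hk
      have h1 : Subgroup.closure (Set.range z ∪ {s}) ≤ Subgroup.centralizer {y.1} := by
        rw [Subgroup.closure_le]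
        rintro u (⟨j, rfl⟩ | hu)
        · have h2 := congrFun h j
          have h3 : y.1 * z j * (y.1)⁻¹ = z j := h2
          show z j ∈ Subgroup.centralizer {y.1}
          rw [Subgroup.mem_centralizer_iff]
          intro v hv
          rw [Set.mem_singleton_iff.1 hv]
          exact mul_inv_eq_iff_eq_mul.1 h3
        · show u ∈ Subgroup.centralizer {y.1}
          rw [Set.mem_singleton_iff.1 hu, Subgroup.mem_centralizer_iff]
          intro v hv
          rw [Set.mem_singleton_iff.1 hv]
          exact hcomm y
      exact (Subgroup.mem_centralizer_iff.1 (h1 hk) y.1 (Set.mem_singleton _)).symm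
    · intro h
      funext j
      show y.1 * z j * (y.1)⁻¹ = z j
      rw [mul_inv_eq_iff_eq_mul]
      exact (h (z j) (Subgroup.subset_closure (Or.inl ⟨j, rfl⟩))).symm
  obtain ⟨w, hw, hsum⟩ := hODV p hS.pr N (Fin n → G) (HH2_act n N) I
    (fun z => f₂ (qq z * s)⁻¹ * (∏ j, tp p (z j)) *
      (W p (Subgroup.closure (Set.range z ∪ {s})) : ℂ))
    (fun y z => by
      have h1 : f₂ (qq (HH2_act n N y z) * s)⁻¹ = f₂ (qq z * s)⁻¹ := by
        have h2 : (qq (HH2_act n N y z) * s)⁻¹ = y.1 * (qq z * s)⁻¹ * (y.1)⁻¹ := by
          have h3 : qq (HH2_act n N y z) = y.1 * qq z * (y.1)⁻¹ := HH2_qq y.1 n z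
          have h4 : s = y.1 * s * (y.1)⁻¹ := by
            rw [hcomm y]
            simp
          rw [h3]
          conv_lhs => rw [h4]
          group
        rw [h2, hf.cls]
      have h5 : ∏ j, tp p (HH2_act n N y z j) = ∏ j, tp p (z j) :=
        Finset.prod_congr rfl fun j _ => HH2_tp p (z j) y.1
      show f₂ (qq (HH2_act n N y z) * s)⁻¹ * (∏ j, tp p (HH2_act n N y z j)) *
        (W p (Subgroup.closure (Set.range (HH2_act n N y z) ∪ {s})) : ℂ) = _
      rw [h1, h5, hcl y z, (hWCJ G p).1])
    (fun z => by
      obtain ⟨k, hk⟩ := hWCD G p (Subgroup.closure (Set.range z ∪ {s}))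
      have hcard : pp p {y : N // HH2_act n N y z = z} =
          pp p (cz (Subgroup.closure (Set.range z ∪ {s}))) := by
        unfold pp
        have h6 : Nat.card {y : N // HH2_act n N y z = z} =
            Nat.card (cz (Subgroup.closure (Set.range z ∪ {s}))) := by
          refine Nat.card_congr
            { toFun := fun y => ⟨y.1.1, (hfix y.1 z).1 y.2⟩
              invFun := fun y => ⟨⟨y.1, ?_⟩, ?_⟩
              left_inv := fun y => rfl
              right_inv := fun y => rfl }
          · rw [hN, Subgroup.mem_centralizer_iff]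
            intro v hv
            have h7 := y.2
            unfold cz at h7
            rw [Subgroup.mem_centralizer_iff] at h7
            exact h7 v (Subgroup.subset_closure (Or.inr hv))
          · exact (hfix _ z).2 y.2
        rw [h6]
      refine ⟨f₂ (qq z * s)⁻¹ * (∏ j, tp p (z j)) * (k : ℂ), ?_, ?_⟩
      · have h8 : IntAt M (∏ j, tp p (z j)) := by
          have h9 : (∏ j, tp p (z j)) = 0 ∨ (∏ j, tp p (z j)) = 1 := by
            by_cases h10 : ∀ j, (z j) ^ p = 1
            · right
              refine Finset.prod_eq_one fun j _ => ?_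
              unfold tp
              rw [if_pos (h10 j)]
            · left
              push Not at h10
              obtain ⟨j, hj⟩ := h10
              refine Finset.prod_eq_zero (Finset.mem_univ j) ?_
              unfold tp
              rw [if_neg hj]
          rcases h9 with h9 | h9
          · rw [h9]
            exact IntAt.zero hS
          · rw [h9]
            exact IntAt.one hS
        have h11 : IntAt M ((k : ℤ) : ℂ) := IntAt.of_isIntegral hS (by
          have := isIntegral_algebraMap (R := ℤ) (A := ℂ) (x := k)
          simpa using this)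
        exact IntAt.mul hS (IntAt.mul hS (hf.int _) h8) h11
      · show f₂ (qq z * s)⁻¹ * (∏ j, tp p (z j)) *
          (W p (Subgroup.closure (Set.range z ∪ {s})) : ℂ) = _
        rw [hcard, hk]
        push_cast
        ring)
  exact ⟨w, hw, hsum⟩

end Pool.Agent.OB
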