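import Pool.Agent.helper22.OB.SpecG
import Pool.Agent.helper25.OB.ZT5

set_option autoImplicit false

/-!
Row HH3 of OB: Galois conjugation of the parts of the sphere sum.
-/

namespace Pool.Agent.OB

open Pool.Agent.helper58.DC Pool.Agent.DI Pool.Agent.GR

theorem HH3_ind {G : Type} [Group G] (s x y : G) : ind s (y * x * y⁻¹) = ind s x := by
  unfold ind
  have h1 : y * x * y⁻¹ ∈ conjugatesOf s ↔ x ∈ conjugatesOf s := by
    have h2 : IsConj x (y * x * y⁻¹) := isConj_iff.2 ⟨y, rfl⟩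
    exact ⟨fun h3 => IsConj.trans h3 h2.symm, fun h3 => IsConj.trans h3 h2⟩
  by_cases hx : x ∈ conjugatesOf s
  · rw [if_pos hx, if_pos (h1.2 hx)]
  · rw [if_neg hx, if_neg fun h3 => hx (h1.1 h3)]

theorem HH3_sum {G : Type} [Group G] [Finite G] (s : G) (F : G → ℂ)
    (hF : ∀ x y, F (y * x * y⁻¹) = F x) :
    ∑ᶠ x, ind s x * F x = (Nat.card {x : G // x ∈ conjugatesOf s} : ℂ) * F s := by
  classical
  let _ : Fintype G := Fintype.ofFinite G
  rw [finsum_eq_sum_of_fintype]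
  have h1 : ∀ x : G, ind s x * F x = if x ∈ conjugatesOf s then F s else 0 := by
    intro x
    unfold ind
    by_cases hx : x ∈ conjugatesOf s
    · rw [if_pos hx, if_pos hx, one_mul]
      obtain ⟨c, hc⟩ := isConj_iff.1 (show IsConj s x from hx)
      rw [← hc, hF]
    · rw [if_neg hx, if_neg hx, zero_mul]
  rw [Finset.sum_congr rfl fun x _ => h1 x, ← Finset.sum_filter, Finset.sum_const, nsmul_eq_mul]
  congr 1
  rw [Nat.card_eq_fintype_card, Fintype.card_subtype]

theorem HH3 (hSGL : SGL_stmt) (hHH1 : HH1_stmt) : HH3_stmt := by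
  intro G _ _ p _ hO f₂ hf₂ n m hm hfm s
  obtain ⟨t, -, hmt⟩ := ZT5_inv G m hm
  have e1 : ∀ x : G, (x ^ m) ^ t = x := fun x => by rw [← pow_mul]; exact hmt x
  have e2 : ∀ x : G, (x ^ t) ^ m = x := fun x => by rw [← pow_mul, mul_comm]; exact hmt x
  have hconj : ∀ x : G, IsConj (s ^ m) (x ^ m) ↔ IsConj s x := by
    intro x
    constructor
    · intro h
      have h1 := h.pow t
      rwa [e1, e1] at h1
    · intro h
      exact h.pow m
  have hpw : pw m (ind (s ^ m)) = ind s := by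
    funext x
    unfold pw ind
    have hm' : x ^ m ∈ conjugatesOf (s ^ m) ↔ x ∈ conjugatesOf s := hconj x
    by_cases hx : x ∈ conjugatesOf s
    · rw [if_pos hx, if_pos (hm'.2 hx)]
    · rw [if_neg hx, if_neg fun h3 => hx (hm'.1 h3)]
  have h1 := hSGL G p hO (ind (s ^ m)) f₂ (HH3_ind (s ^ m)) hf₂ n m hm hfm
  rw [hpw, (hHH1 G p (ind s) f₂ n hf₂).1, (hHH1 G p (ind (s ^ m)) f₂ n hf₂).1,
    HH3_sum s _ (hHH1 G p (ind s) f₂ n hf₂).2, HH3_sum (s ^ m) _ (hHH1 G p (ind s) f₂ n hf₂).2] at h1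
  have hcard : Nat.card {x : G // x ∈ conjugatesOf s} = Nat.card {x : G // x ∈ conjugatesOf (s ^ m)} :=
    Nat.card_congr
      { toFun := fun x => ⟨x.1 ^ m, (hconj x.1).2 x.2⟩
        invFun := fun x => ⟨x.1 ^ t, by
          have h2 : IsConj (s ^ m) ((x.1 ^ t) ^ m) := by
            rw [e2]
            exact x.2
          exact (hconj _).1 h2⟩
        left_inv := fun x => Subtype.ext (e1 x.1)
        right_inv := fun x => Subtype.ext (e2 x.1) }
  rw [← hcard] at h1
  have hne : (Nat.card {x : G // x ∈ conjugatesOf s} : ℂ) ≠ 0 := by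
    have : Nonempty {x : G // x ∈ conjugatesOf s} := ⟨⟨s, IsConj.refl s⟩⟩
    exact_mod_cast (Nat.card_pos (α := {x : G // x ∈ conjugatesOf s})).ne'
  exact (mul_left_cancel₀ hne h1).symm

end Pool.Agent.OB
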