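import Mathlib
import Pool.Agent.helper22.OB.SpecD

/-!
# Project ob (MP_baa4d7_al): roots which are conjugate to all their powers

TARGET (UP3). Theorem UP2 holds under a weaker condition: instead of supposing that `g` is not an `e`-th power it is
enough to suppose that every `b` with `b ^ e = g` has a power `b ^ m`, `m ≡ 1` modulo the order of `g`, which is not
conjugate to `b`. (For `D` abelian, cyclic, dihedral, ... this holds for suitable `g`.)

PROOF. The sphere sum with the weight `ind g ∘ pow_e` at the first point is the sum of the `hh s` over the `s` with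
`s ^ e` conjugate to `g`, where `hh s` is the sum over the rest. By Frobenius's formula and Galois conjugation of the
characters `hh (s ^ m) = hh s` for all `m` prime to `|G|` with `v ^ m = v` for all `p`-regular `v`; these `m` with
`m ≡ 1` modulo the order of `g` form a `p`-group `P`, and `G × P` acts on the `s`. `hh s` is divisible by `|C_G(s)|_p`, and no
class of the `s` is fixed by `P`; so the sum is divisible by `p |G|_p`.

Rules: see `Pool/Agent/helper12/OB/SpecA.lean`; import `Pool.Agent.helper22.OB.SpecG`. `pp p N = |N|_p`.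
-/

set_option autoImplicit false

namespace Pool.Agent.OB

open Pool.Agent.helper58.DC Pool.Agent.DI Pool.Agent.GR

/-- The part of the sphere sum `Sp p f₁ f₂ n` which belongs to `s`. -/
noncomputable def hh {G : Type} [Group G] (p : ℕ) (f₂ : G → ℂ) (n : ℕ) (s : G) : ℂ :=
  ∑ᶠ z : Fin n → G, f₂ (qq z * s)⁻¹ * (∏ j, tp p (z j)) *
    (W p (Subgroup.closure (Set.range z ∪ {s})) : ℂ)

/-- **SUP** (medium; from LSB, CVF, CCI, B2). Frobenius's formula for the sphere. Proof: `Pool/Agent/helper80/OB/TUP.lean` without the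
factor `w` of the commutators: `cv w (TUP_K t k n)` is replaced by `TUP_K t k n` (its value at `1` is the left side by
`TUP_K_val`; `LSB` for it; `TUP_r`, `TUP_CF`, `TUP_cc`, `TUP_K`, `TUP_K_val`, `TUP_tp` may be imported from that file). -/
def SUP_stmt : Prop :=
  ∀ (G : Type) [Group G] [Finite G] (p : ℕ) (L : Subgroup G) (g₁ g₂ : G → ℂ),
    (∀ x y, g₁ (y * x * y⁻¹) = g₁ x) → (∀ x y, g₂ (y * x * y⁻¹) = g₂ x) → ∀ n : ℕ,
    (Nat.card L : ℂ) * ∑ᶠ x ∈ {x : (Fin n → G) × G | Subgroup.closure (Set.range x.1 ∪ {x.2}) ≤ L},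
      g₁ x.2 * g₂ (qq x.1 * x.2)⁻¹ * (∏ j, tp p (x.1 j)) =
    ∑ᶠ ψ ∈ IrrOn L, ψ 1 ^ 2 * (cc ψ g₁ * cc ψ g₂ * (cc ψ (tp p)) ^ n)

/-- **SGL** (short to medium; from SUP, KRW, ZT4). Galois conjugation. Proof: insert KRW for the closures and exchange the sums
(`Pool/Agent/helper92/OB/TEX.lean`), so it is enough to have the equality of the sums over
`{x | closure (range x.1 ∪ {x.2}) ≤ L}` for `L = nrm C`; by SUP (`|L| ≠ 0`) this is the equality of the sums over `IrrOn L` of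
`ψ 1 ^ 2 * (cc ψ (pw m f₁) * cc ψ f₂ * (cc ψ (tp p)) ^ n)` and of `ψ 1 ^ 2 * (cc ψ f₁ * cc ψ f₂ * (cc ψ (tp p)) ^ n)`. As
`pw m f₂ = f₂` and `pw m (tp p) = tp p` (`x ^ (m * p) = 1` iff `x ^ p = 1`, `m` prime to the order), this follows like
ZT5 (`Pool/Agent/helper25/OB/ZT5.lean`: the bijection `ψ ↦ fun g => ψ (g ^ s)` of `IrrOn L`, `m * s ≡ 1` modulo `|G|`; each of the three
factors `cc ψ (fun g => z (g ^ m))` is `cc (fun g => ψ (g ^ s)) z`). -/
def SGL_stmt : Prop :=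
  ∀ (G : Type) [Group G] [Finite G] (p : ℕ) [Fact p.Prime], IsOp p (⊤ : Subgroup G) ⊥ →
    ∀ (f₁ f₂ : G → ℂ), (∀ x y, f₁ (y * x * y⁻¹) = f₁ x) → (∀ x y, f₂ (y * x * y⁻¹) = f₂ x) →
    ∀ n m : ℕ, m.Coprime (Nat.card G) → (∀ x, f₂ (x ^ m) = f₂ x) →
    Sp p (pw m f₁) f₂ n = Sp p f₁ f₂ n

/-- **HH1** (short). Elementary properties. Proof: (1) Fubini for finite sums. (2) Substitute `z = fun j => y * z' j * y⁻¹`;
`qq z * (y * s * y⁻¹) = y * (qq z' * s) * y⁻¹`, `closure = cj y (closure')`, WCJ (1), `tp` is a class function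
(`TUP_tp` in `Pool/Agent/helper80/OB/TUP.lean`). Uses: WCJ. -/
def HH1_stmt : Prop :=
  ∀ (G : Type) [Group G] [Finite G] (p : ℕ) [Fact p.Prime] (f₁ f₂ : G → ℂ) (n : ℕ),
    (∀ x y, f₂ (y * x * y⁻¹) = f₂ x) →
    Sp p f₁ f₂ n = ∑ᶠ s, f₁ s * hh p f₂ n s ∧ ∀ s y, hh p f₂ n (y * s * y⁻¹) = hh p f₂ n s

/-- **HH2** (short; as LDW, `Pool/Agent/helper74/OB/LDW.lean`). Divisibility. Proof: ODV with `N` the centralizer of `s`, which acts on
`Fin n → G` by conjugation of all entries (`f₂ ((qq (y z y⁻¹) * s)⁻¹) = f₂ ((qq z * s)⁻¹)` as `y` commutes with `s`), `I` the set of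
all `w` with `IntAt M w`. The stabiliser of `z` in `N` is `cz (closure (Set.range z ∪ {s}))`, and by WCD `W` of the closure is divisible
by the `p`-part of its order. `pp` depends only on the cardinality. Uses: ODV, WCD, WCJ. -/
def HH2_stmt : Prop :=
  ∀ (p : ℕ) (M : Ideal (integralClosure ℤ ℂ)), Setup p M → ∀ (G : Type) [Group G] [Finite G]
    (f₂ : G → ℂ), ClF M f₂ → ∀ (n : ℕ) (s : G), ∃ w, IntAt M w ∧
      hh p f₂ n s = (pp p (Subgroup.centralizer ({s} : Set G)) : ℂ) * w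

/-- **HH3** (short; from SGL, HH1). Galois conjugation of `hh`. Proof: SGL for `f₁ = ind (s ^ m)`: `pw m f₁ = ind s`, because
`x ^ m` is conjugate to `s ^ m` iff `x` is conjugate to `s` (`m` is prime to `|G|`: `y ↦ y ^ m` is a bijection which commutes with
conjugation). By HH1 `Sp p (ind s) f₂ n = |cl(s)| * hh s` (`hh` is constant on the class), and the class of `s ^ m` has the
same number of elements (same bijection); divide. -/
def HH3_stmt : Prop :=
  ∀ (G : Type) [Group G] [Finite G] (p : ℕ) [Fact p.Prime], IsOp p (⊤ : Subgroup G) ⊥ →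
    ∀ (f₂ : G → ℂ), (∀ x y, f₂ (y * x * y⁻¹) = f₂ x) →
    ∀ n m : ℕ, m.Coprime (Nat.card G) → (∀ x, f₂ (x ^ m) = f₂ x) →
    ∀ s, hh p f₂ n (s ^ m) = hh p f₂ n s

/-- **FXC** (medium). Orbits of powers. Proof. Let `n₀ = |G| = p ^ A * q`, `p ∤ q`, `o = orderOf g`, `q₁ = p ^ a`.
(1) `p ∣ o`: otherwise there is a power `b` of `g` with `b ^ q₁ = g` (`q₁` is prime to `o`), and `b ^ m = b` for all
`m ≡ 1` modulo `o`, against the hypothesis. (2) Let `P` be the subgroup of the `u` in `(ZMod n₀)ˣ` with `u.val ≡ 1` modulo `q` and modulo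
`o` (kernel of the two maps `ZMod.unitsMap`). It is a `p`-group: `u.val ≡ 1` modulo `p` by (1), so `p ^ (A + 1)` divides
`u.val ^ (p ^ A) - 1` (`dvd_sub_pow_of_dvd_sub`), and `q` divides it too, so `u ^ (p ^ A) = 1`. (3) For `u ∈ P`: `u.val` is prime to `n₀` and
`v ^ u.val = v` for every `p`-regular `v` (its order divides `q`), so `h (x ^ u.val) = h x`. (4) `G × P` acts on
`X = {s // s ^ q₁ ∈ conjugatesOf g}` by `(x, u) • s = x * s ^ u.val * x⁻¹` (`g ^ u.val = g`), `h` is invariant. The stabiliser of `s` has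
`|C_G(s)| |P_s|` elements, `P_s` the subgroup of the `u` with `s ^ u.val` conjugate to `s`. (5) `P_s ≠ P`: let `s ^ q₁ = x g x⁻¹`,
`b = x⁻¹ s x`, `b ^ q₁ = g`; take `m` from the hypothesis and `m₁ ≡ m` modulo `p ^ A`, `m₁ ≡ 1` modulo `q` (Chinese remainder); the order of `b`
divides `n₀` and its `p`-regular part divides `o`, so `b ^ m₁ = b ^ m`; `m₁ ≡ 1` modulo `o`; so `m₁` defines an element of `P` which is not in
`P_s` (`b ^ m` is not conjugate to `b`). So `p |P_s|` divides `|P|`. (6) ODV for `N = G × P`, `I = {w | (|P| / p) * w is IntAt M}`: by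
hypothesis `h s = |C_G(s)|_p w₀ = |N_s|_p (w₀ / |P_s|)`, and `(|P| / p) / |P_s|` is a natural number. So the sum over `X` is
`|G|_p |P| w`, `w ∈ I`, that is `|G|_p p ((|P| / p) w)`, and `p * IntAt` is `InM`. (The sum in the statement is the sum over `X`, as
`ind g (s ^ q₁)` is `1` for `s ∈ X` and `0` otherwise.) Uses: ODV. -/
def FXC_stmt : Prop :=
  ∀ (p a : ℕ) (M : Ideal (integralClosure ℤ ℂ)), Setup p M → ∀ (G : Type) [Group G] [Finite G]
    (h : G → ℂ) (g : G), (∀ x y, h (y * x * y⁻¹) = h x) →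
    (∀ m : ℕ, m.Coprime (Nat.card G) → (∀ v : G, ¬ p ∣ orderOf v → v ^ m = v) →
      ∀ x, h (x ^ m) = h x) →
    (∀ s, ∃ w, IntAt M w ∧ h s = (pp p (Subgroup.centralizer ({s} : Set G)) : ℂ) * w) →
    (∀ b : G, b ^ (p ^ a) = g → ∃ m : ℕ, m ≡ 1 [MOD orderOf g] ∧ ¬ IsConj b (b ^ m)) →
    Cg p M G (∑ᶠ s, ind g (s ^ (p ^ a)) * h s) 0

/-- **UP3** (short to medium; as UP2, `Pool/Agent/helper25/OB/UP2.lean`, its auxiliary lemmas may be imported). The core theorem. Proof: as UP2; the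
only change is that instead of `Sp p (pw e (ind g)) (pw e ζ) 1 = 0` (`e = p ^ a`, `a = 2` for `p = 2`, `a = 1` for `p = 3`) we have
`Cg p M G (Sp p (pw e (ind g)) (pw e ζ) 1) 0` by HH1 (1) and FXC for `h = hh p (pw e ζ) 1`: its first three hypotheses are HH1 (2),
HH3 and HH2. For HH3 we need `ζ ((x ^ m) ^ e) = ζ (x ^ e)` for `m` prime to `|G|` with `v ^ m = v` for all `p`-regular `v`:
`(x ^ m) ^ e = (x ^ e) ^ m`; if `p` does not divide the order of `x ^ e` this is `x ^ e`; otherwise `p` divides the order of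
`(x ^ e) ^ m` too, and both values are `0` (ZT1). Then `LAD_trans` as in UP2 (`Cg` is symmetric). -/
def UP3_stmt : Prop :=
  ∀ (p a : ℕ), (p = 2 ∧ a = 2 ∨ p = 3 ∧ a = 1) → ∀ (M : Ideal (integralClosure ℤ ℂ)),
    Setup p M → ∀ (G : Type) [Group G] [Finite G], IsOp p (⊤ : Subgroup G) ⊥ → ∀ χ ∈ Irr G,
    ∀ g : G, ¬ InM M (omega χ g) →
    (∀ b : G, b ^ (p ^ a) = g → ∃ m : ℕ, m ≡ 1 [MOD orderOf g] ∧ ¬ IsConj b (b ^ m)) →
    (p : ℤ) ∣ aB p M χ

/-- **DG5** (medium; group theory). Proof. Let `b ^ (p ^ a) = z x` and suppose that `b` is conjugate in `G` to `b ^ m` for all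
`m ≡ 1` modulo `o = orderOf (z x)`. Let `y₁`, `y₂` be the `p`-part and the `p`-regular part of `b` (powers of `b`); `y₁ ^ (p ^ a) = z`,
`y₂ ^ (p ^ a) = x` (see `Pool/Agent/helper89/OB/DG4.lean`). Let `C = C_G(z x)` (it commutes with `z` and `x`, powers of `z x`; so
`D ≤ C ≤ C_G(x)` and `D` is a Sylow `p`-subgroup of `C`), `N` the set of the `t ∈ C` with `t b t⁻¹ ∈ zpowers b` (the intersection of `C` with the
normalizer of `zpowers b`, a subgroup), `K` the centralizer of `b` in `N`. `N / K` is a `p`-group: for `t ∈ N` `t b t⁻¹ = b ^ m`, and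
`z x = t (z x) t⁻¹ = (z x) ^ m` gives `m ≡ 1` modulo `o`; the order of `b` divides `p ^ a * o`; `z ≠ 1` (for `z = 1` the hypothesis on
`y = 1` is false), so `p ∣ o`, and `m ^ (p ^ k) ≡ 1` modulo `p ^ k * o` by induction on `k`; so `t ^ (p ^ a)` commutes with `b`. Let `Q` be a Sylow
`p`-subgroup of `N`. Then `N = Q K` (the index of `K` in `N` is a power of `p`, the index of `Q` is prime to `p`), and `y₁ ∈ Q` because
`y₁` is a `p`-element, central modulo nothing but commuting with `K` and normalised: `zpowers y₁` is a normal `p`-subgroup of `N`.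
`Q` is a `p`-subgroup of `C`, so there is `c ∈ C` with `c Q c⁻¹ ≤ D`. Put `y = c y₁ c⁻¹ ∈ D`, `y ^ (p ^ a) = c z c⁻¹ = z`. The hypothesis gives
`m ≡ 1` modulo `orderOf z` with `d y d⁻¹ ≠ y ^ m` for all `d ∈ D`. Choose `m' ≡ m` modulo the order of `y₁` and `m' ≡ 1` modulo the order of `y₂`
(Chinese remainder); `m' ≡ 1` modulo `o` (`orderOf z` divides the order of `y₁`, the orders of `x` and `y₂` are equal; `o` is their
product). So `t b t⁻¹ = b ^ m'` for some `t ∈ G`, `t` commutes with `b ^ (p ^ a) = z x` (as `(z x) ^ m' = z x`), `t ∈ N`, `t = q k` with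
`q ∈ Q`, `k ∈ K`; `q b q⁻¹ = b ^ m'`, so `q y₁ q⁻¹ = y₁ ^ m' = y₁ ^ m`, and `d = c q c⁻¹ ∈ D` satisfies `d y d⁻¹ = y ^ m`, a contradiction. -/
def DG5_stmt : Prop :=
  ∀ (p a : ℕ) [Fact p.Prime] (G : Type) [Group G] [Finite G] (D : Subgroup G) (x z : G),
    ¬ p ∣ orderOf x → D ≤ Subgroup.centralizer {x} → IsPGroup p D →
    Nat.card D = pp p (Subgroup.centralizer ({x} : Set G)) → z ∈ D → (∀ d ∈ D, z * d = d * z) →
    (∀ y ∈ D, y ^ (p ^ a) = z → ∃ m : ℕ, m ≡ 1 [MOD orderOf z] ∧ ∀ d ∈ D, d * y * d⁻¹ ≠ y ^ m) →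
    ∀ b : G, b ^ (p ^ a) = z * x →
      ∃ m : ℕ, m ≡ 1 [MOD orderOf (z * x)] ∧ ¬ IsConj b (b ^ m)

/-- **DG6** (short; from DG2, DG3; the first half of DG4, `Pool/Agent/helper89/OB/DG4.lean`, without the hypothesis on roots). -/
def DG6_stmt : Prop :=
  ∀ (p : ℕ) (M : Ideal (integralClosure ℤ ℂ)), Setup p M → ∀ (G : Type) [Group G] [Finite G],
    ∀ χ ∈ Irr G, ∀ (D : Subgroup G) (x : G), DefAt p M χ D x →
    ∀ z ∈ D, (∀ d ∈ D, z * d = d * z) → ¬ InM M (omega χ (z * x))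

end Pool.Agent.OB
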