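import Pool.Agent.helper22.OB.SpecG
import Pool.Agent.helper25.OB.UP2

set_option autoImplicit false

/-!
Row UP3 of OB: the core theorem under the condition on the powers of the roots.
-/

namespace Pool.Agent.OB

open Pool.Agent.helper58.DC Pool.Agent.DI Pool.Agent.GR

theorem UP3_symm {p : ℕ} {M : Ideal (integralClosure ℤ ℂ)} {G : Type} {a b : ℂ}
    (h : Cg p M G a b) : Cg p M G b a := by
  obtain ⟨w, hw, e⟩ := h
  refine ⟨-w, InM.neg hw, ?_⟩
  rw [mul_neg, ← e]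
  ring

theorem UP3_zeta {p : ℕ} {M : Ideal (integralClosure ℤ ℂ)} (hS : Setup p M) (hZT1 : ZT1_stmt)
    {G : Type} [Group G] [Finite G] (χ : G → ℂ) (e m : ℕ) (hm : m.Coprime (Nat.card G))
    (hv : ∀ v : G, ¬ p ∣ orderOf v → v ^ m = v) (x : G) :
    pw e (zeta M χ) (x ^ m) = pw e (zeta M χ) x := by
  unfold pw
  have h1 : (x ^ m) ^ e = (x ^ e) ^ m := by rw [← pow_mul, ← pow_mul, mul_comm]
  rw [h1]
  by_cases h : p ∣ orderOf (x ^ e)
  · have h2 : orderOf ((x ^ e) ^ m) = orderOf (x ^ e) :=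
      (Nat.Coprime.coprime_dvd_left (orderOf_dvd_natCard (x ^ e)) hm.symm).orderOf_pow
    rw [hZT1 p M hS G χ _ h, hZT1 p M hS G χ _ (h2 ▸ h)]
  · rw [hv _ h]

theorem UP3 (hDBL : DBL_stmt) (hBR2 : BR2_stmt) (hBR3 : BR3_stmt) (hFT2 : FT2_stmt)
    (hZT0 : ZT0_stmt) (hZT1 : ZT1_stmt) (hC3 : C3_stmt) (hTI : TI_stmt) (hHH1 : HH1_stmt)
    (hHH2 : HH2_stmt) (hHH3 : HH3_stmt) (hFXC : FXC_stmt) : UP3_stmt := by
  intro p a hpa M h G _ _ hO χ hχ g hg hroot
  have hpr := h.pr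
  have : Fact p.Prime := ⟨hpr⟩
  obtain ⟨hz1, hz2, -⟩ := hZT0 p M h G χ
  have hz : ClF M (zeta M χ) := ⟨hz1, hz2⟩
  have hi : ClF M (ind g) := UP2_ind_clf h g
  have hze : ClF M (pw (p ^ a) (zeta M χ)) := LAD_clf hz (p ^ a)
  -- the sphere sum
  have hsp : Cg p M G (Sp p (pw (p ^ a) (ind g)) (pw (p ^ a) (zeta M χ)) 1) 0 := by
    rw [(hHH1 G p (pw (p ^ a) (ind g)) (pw (p ^ a) (zeta M χ)) 1 hze.cls).1]
    exact hFXC p a M h G (hh p (pw (p ^ a) (zeta M χ)) 1) g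
      (hHH1 G p (pw (p ^ a) (ind g)) (pw (p ^ a) (zeta M χ)) 1 hze.cls).2
      (fun m hm hv x => hHH3 G p hO (pw (p ^ a) (zeta M χ)) hze.cls 1 m hm
        (UP3_zeta h hZT1 χ (p ^ a) m hm hv) x)
      (fun s => hHH2 p M h G (pw (p ^ a) (zeta M χ)) hze 1 s) hroot
  have key : Cg p M G 0 (To p (ind g) (zeta M χ) 0) := by
    rcases hpa with ⟨rfl, rfl⟩ | ⟨rfl, rfl⟩
    · have h2 := hDBL 2 M h G 1 (pw 2 (ind g)) (pw 2 (zeta M χ)) (LAD_clf hi 2) (LAD_clf hz 2)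
      have h3 := hBR2 M h G 0 (ind g) (zeta M χ) hi hz
      have h4 := LAD_trans h h2 h3
      rw [LAD_pw, LAD_pw] at h4
      exact LAD_trans h (UP3_symm hsp) h4
    · have h3 := hBR3 M h G 0 (ind g) (zeta M χ) hi hz
      rw [pow_one] at hsp
      exact LAD_trans h (UP3_symm hsp) h3
  have h6 := LAD_trans h key (hFT2 p M h G hO χ hχ g)
  obtain ⟨w, hw, hw'⟩ := h6
  -- the order of G
  obtain ⟨m, hm⟩ : (pp p G : ℕ) ∣ Nat.card G := pow_padicValNat_dvd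
  have hcard : Nat.card G ≠ 0 := Nat.card_pos.ne'
  have hpp : pp p G ≠ 0 := by
    intro h0
    rw [h0, zero_mul] at hm
    exact hcard hm
  have hpm : ¬ p ∣ m := by
    rintro ⟨k, rfl⟩
    have h7 : p ^ (padicValNat p (Nat.card G) + 1) ∣ Nat.card G := by
      refine ⟨k, ?_⟩
      rw [pow_succ]
      conv_lhs => rw [hm]
      unfold pp
      ring
    exact pow_succ_padicValNat_not_dvd hcard h7
  have hppC : (pp p G : ℂ) ≠ 0 := by exact_mod_cast hpp
  have h8 : ((m : ℂ) * (aB p M χ : ℂ)) * omega χ g = -w := by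
    have h9 : (pp p G : ℂ) * (((m : ℂ) * (aB p M χ : ℂ)) * omega χ g) = (pp p G : ℂ) * (-w) := by
      rw [mul_neg, ← hw', hm]
      push_cast
      ring
    exact mul_left_cancel₀ hppC h9
  have h10 : InM M (((m : ℂ) * (aB p M χ : ℂ)) * omega χ g) := by
    rw [h8]
    exact InM.neg hw
  have hint : ∀ k : ℤ, IntAt M (k : ℂ) := fun k => IntAt.of_isIntegral h (by
      have := isIntegral_algebraMap (R := ℤ) (A := ℂ) (x := k)
      simpa using this)
  have hom : IntAt M (omega χ g) :=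
    IntAt.of_isIntegral h ((hC3 G).2.2.2 ⊤ χ ((hTI G χ).2 hχ) g)
  have h11 : InM M ((m : ℂ) * (aB p M χ : ℂ)) := by
    rcases InM.or h ((IntAt.natCast h m).mul h (hint _)) hom h10 with h12 | h12
    · exact h12
    · exact absurd h12 hg
  have h13 : InM M (aB p M χ : ℂ) := by
    rcases InM.or h (IntAt.natCast h m) (hint _) h11 with h12 | h12
    · exact absurd ((InM.natCast h m).1 h12) hpm
    · exact h12
  exact UP2_dvd h h13

end Pool.Agent.OB
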