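import Pool.Agent.helper22.OB.Uni
import Pool.Agent.helper22.OB.SpecG
import Pool.Agent.helper22.OB.DefsG
import Pool.Agent.helper22.OB.UP3
import Pool.Agent.helper22.OB.HH2
import Pool.Agent.helper22.OB.HH3
import Pool.Agent.helper22.OB.DG6
import Pool.Agent.helper78.OB.ZT1
import Pool.Agent.helper68.OB.ZT4
import Pool.Agent.helper8.OB.DG5
import Pool.Agent.helper70.OB.SGL
import Pool.Agent.helper78.OB.SUP
import Pool.Agent.helper99.OB.HH1

/-!
# Project ob (MP_baa4d7_al): the final theorem under the condition on the powers of the roots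
-/

set_option autoImplicit false

namespace Pool.Agent.OB

open Pool.Agent.helper58.DC Pool.Agent.DI Pool.Agent.GR

/-- all extensions, from the congruence for the block -/
theorem FinG_ext (p : ℕ) [Fact p.Prime] (M : Ideal (integralClosure ℤ ℂ)) (G : Type) [Group G]
    [Finite G] (χ : G → ℂ) (hχ : χ ∈ Irr G) (h1 : (p : ℤ) ∣ aB p M χ) (E A : Type) [Group E]
    [Group A] [Finite E] (X : Extension G E A) (W : Subgroup A) (hW : IsPGroup p W)
    (U : Subgroup A) (hU : U ≤ W) :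
    (p : ℤ) ∣ ∑ᶠ d : ℤ, ∑ᶠ V : {V : Subgroup A // V ⊓ W = U}, altSum X p M χ d V.1 := by
  classical
  have : Finite A := Finite.of_surjective X.proj X.proj_surjective
  have : Fintype (Subgroup A) := Fintype.ofFinite _
  have hfin : ∀ V : Subgroup A, {d : ℤ | altSum X p M χ d V ≠ 0}.Finite := fun V =>
    Pool.Agent.DR.AllDI.iFNx G E A X p M χ V
  rw [Uni_swap (fun d V => altSum X p M χ d V) hfin (fun V : Subgroup A => V ⊓ W = U)]
  have h2 : ∀ U : Subgroup A, IsPGroup p U →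
      (p : ℤ) ∣ ∑ V ∈ Finset.univ.filter (fun V : Subgroup A => U ≤ V),
        ∑ᶠ d : ℤ, altSum X p M χ d V := by
    intro U' hU'
    have h3 := AllU.uPGU p M G E A X χ hχ h1 U' hU'
    rw [Uni_swap (fun d V => altSum X p M χ d V) hfin (fun V : Subgroup A => U' ≤ V)] at h3
    exact h3
  exact Uni_moeb (fun V => ∑ᶠ d : ℤ, altSum X p M χ d V) p W hW h2 U hU

theorem FinG_nonVan {p : ℕ} {M : Ideal (integralClosure ℤ ℂ)} (hS : Setup p M) {G : Type} [Group G]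
    [Finite G] {χ : G → ℂ} (hχ : χ ∈ Irr G) (g : G) :
    Pool.Agent.M23g.NonVan M χ g ↔ ¬ InM M (omega χ g) :=
  Fin_nonVan hS hχ g

theorem FinG_defAt {p : ℕ} {M : Ideal (integralClosure ℤ ℂ)} (hS : Setup p M) {G : Type} [Group G]
    [Finite G] {χ : G → ℂ} (hχ : χ ∈ Irr G) {D : Subgroup G}
    (hD : Pool.Agent.M23g.DefectGroup p M χ D) : ∃ x : G, DefAt p M χ D x :=
  Fin_defAt hS hχ hD

theorem FinG_root {G : Type} [Group G] {e k : ℕ} {g : G}
    (h : ∀ b : G, b ^ e = g → ¬ Pool.Agent.M23g.PowerConj ⊤ k b) :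
    ∀ b : G, b ^ e = g → ∃ m : ℕ, m ≡ 1 [MOD k] ∧ ¬ IsConj b (b ^ m) := by
  intro b hb
  have h1 := h b hb
  unfold Pool.Agent.M23g.PowerConj at h1
  push Not at h1
  obtain ⟨m, hm, h2⟩ := h1
  refine ⟨m, hm, fun h3 => ?_⟩
  obtain ⟨c, hc⟩ := isConj_iff.1 h3
  exact h2 c (Subgroup.mem_top c) hc

theorem FinG_root' {G : Type} [Group G] {D : Subgroup G} {e k : ℕ} {z : G}
    (h : ∀ y ∈ D, y ^ e = z → ¬ Pool.Agent.M23g.PowerConj D k y) :
    ∀ y ∈ D, y ^ e = z → ∃ m : ℕ, m ≡ 1 [MOD k] ∧ ∀ d ∈ D, d * y * d⁻¹ ≠ y ^ m := by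
  intro y hy hb
  have h1 := h y hy hb
  unfold Pool.Agent.M23g.PowerConj at h1
  push Not at h1
  exact h1

theorem FinG_center {p : ℕ} [Fact p.Prime] {G : Type} [Group G] [Finite G] {D : Subgroup G}
    (hD : IsPGroup p D) (hne : D ≠ ⊥) :
    ∃ z ∈ D, (∀ d ∈ D, z * d = d * z) ∧ orderOf z = p := by
  have hnt : Nontrivial D := (Subgroup.nontrivial_iff_ne_bot D).2 hne
  have hc : Nontrivial (Subgroup.center D) := hD.center_nontrivial
  have hcp : IsPGroup p (Subgroup.center D) := hD.to_subgroup _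
  have hdvd : p ∣ Nat.card (Subgroup.center D) := by
    rcases hcp.card_eq_or_dvd with h | h
    · exfalso
      have := (Nat.card_eq_one_iff_unique.1 h).1
      exact not_subsingleton _ this
    · exact h
  obtain ⟨z, hz⟩ := exists_prime_orderOf_dvd_card' p hdvd
  refine ⟨(z : D), (z : D).2, fun d hd => ?_, ?_⟩
  · have h1 := Subgroup.mem_center_iff.1 z.2 ⟨d, hd⟩
    have h2 : d * ((z : D) : G) = ((z : D) : G) * d := congrArg Subtype.val h1
    exact h2.symm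
  · rw [← hz, Subgroup.orderOf_coe, Subgroup.orderOf_coe]

theorem FinG_order {G : Type} [Group G] {p a : ℕ} (hp : p.Prime) {y z : G} (hz : orderOf z = p)
    (hy : y ^ (p ^ a) = z) : orderOf y = p * p ^ a := by
  have h1 : y ^ p ^ (a + 1) = 1 := by
    rw [pow_succ, pow_mul, hy, ← hz, pow_orderOf_eq_one]
  have h2 : ¬ y ^ p ^ a = 1 := by
    rw [hy]
    intro h
    rw [h, orderOf_one] at hz
    exact hp.one_lt.ne hz
  have : Fact p.Prime := ⟨hp⟩
  rw [orderOf_eq_prime_pow h2 h1, pow_succ, mul_comm]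

theorem FinG_main (hUP3 : UP3_stmt) (hDG5 : DG5_stmt) (hDG6 : DG6_stmt) (p e : ℕ)
    (hpe : p = 2 ∧ e = 4 ∨ p = 3 ∧ e = 3)
    (M : Ideal (integralClosure ℤ ℂ)) (hS : Setup p M) (G : Type) [Group G] [Finite G]
    (hG : IsOp p (⊤ : Subgroup G) ⊥) (χ : G → ℂ) (hχ : χ ∈ Irr G)
    (h : Pool.Agent.M23g.Cond p e M χ) (E A : Type) [Group E] [Group A] [Finite E]
    (X : Extension G E A) (W : Subgroup A) (hW : IsPGroup p W) (U : Subgroup A) (hU : U ≤ W) :
    (p : ℤ) ∣ ∑ᶠ d : ℤ, ∑ᶠ V : {V : Subgroup A // V ⊓ W = U}, altSum X p M χ d V.1 := by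
  have : Fact p.Prime := ⟨hS.pr⟩
  have hpa : ∃ a : ℕ, e = p ^ a ∧ (p = 2 ∧ a = 2 ∨ p = 3 ∧ a = 1) := by
    rcases hpe with ⟨rfl, rfl⟩ | ⟨rfl, rfl⟩
    · exact ⟨2, by norm_num, Or.inl ⟨rfl, rfl⟩⟩
    · exact ⟨1, by norm_num, Or.inr ⟨rfl, rfl⟩⟩
  obtain ⟨a, rfl, hpa⟩ := hpa
  refine FinG_ext p M G χ hχ ?_ E A X W hW U hU
  rcases h with ⟨D, hD, hne, hy⟩ | ⟨g, hg, hy⟩
  · obtain ⟨x, hx⟩ := FinG_defAt hS hχ hD
    obtain ⟨z, hz, hzc, hzo⟩ := FinG_center hx.pgrp hne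
    refine hUP3 p a hpa M hS G hG χ hχ (z * x) (hDG6 p M hS G χ hχ D x hx z hz hzc)
      (hDG5 p a G D x z hx.reg hx.le hx.pgrp hx.card hz hzc (FinG_root' fun y hyD hyz => ?_))
    rw [hzo]
    refine hy y hyD (FinG_order hS.pr hzo hyz) ?_
    rw [hyz]
    exact hzc
  · exact hUP3 p a hpa M hS G hG χ hχ g ((FinG_nonVan hS hχ g).1 hg) (FinG_root hy)

end Pool.Agent.OB
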