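import Pool.Agent.helper22.OB.ZET3
import Pool.Agent.helper22.OB.SpecU
import Pool.Agent.helper22.WC.CSE
import Pool.Agent.helper13.OB.ODV
import Pool.Agent.helper83.OB.WCJ
import Pool.Agent.helper98.OB.FRB
import Pool.Agent.helper52.OB.WCD
import Pool.Agent.helper28.OB.LLR
import Pool.Agent.helper89.OB.LLB
import Pool.Agent.helper49.OB.BLK
import Pool.Agent.helper41.OB.TW2
import Pool.Agent.helper48.OB.TW3
import Pool.Agent.helper75.OB.BR2
import Pool.Agent.helper2.OB.BR3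
import Pool.Agent.helper50.OB.DBL
import Pool.Agent.helper11.OB.KRW
import Pool.Agent.helper80.OB.LSB
import Pool.Agent.helper80.OB.LSA
import Pool.Agent.helper80.OB.TUP
import Pool.Agent.helper92.OB.TEX
import Pool.Agent.helper11.OB.CHM
import Pool.Agent.helper11.OB.CNJ
import Pool.Agent.helper11.OB.TOA
import Pool.Agent.helper48.OB.PGF
import Pool.Agent.helper11.OB.PGS
import Pool.Agent.helper11.OB.MOP
import Pool.Agent.helper11.OB.PGA
import Pool.Agent.helper30.OB.ZT0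
import Pool.Agent.helper48.OB.ZT3
import Pool.Agent.helper98.OB.FT2
import Pool.Agent.helper25.OB.UP2
import Pool.Agent.helper25.OB.PGU
import Pool.Agent.helper25.OB.FINU
import Pool.Agent.helper83.GR.All
import Pool.Agent.helper35.DR.AllDI
import Pool.Agent.helper99.DC.PM
import Pool.Agent.helper32.DC.CL0
import Pool.Agent.helper48.DC.CL1
import Pool.Agent.helper48.DC.MB
import Pool.Agent.helper8.OB.FRW
import Pool.Agent.helper25.OB.LDB

/-!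
# Project ob (MP_baa4d7_al): assembly of FINU
-/

set_option autoImplicit false

namespace Pool.Agent.OB.AllU

open Pool.Agent.helper58.DC Pool.Agent.DI Pool.Agent.GR Pool.Agent.OB

theorem uODV : ODV_stmt := ODV
theorem uCSE : Pool.Agent.WC.CSE_stmt := Pool.Agent.WC.CSE Pool.Agent.DR.AllDI.iA1
theorem uWCJ : WCJ_stmt := WCJ Pool.Agent.GR.All.dNM uCSE
theorem uFRB : FRB_stmt := FRB Pool.Agent.GR.All.dPPT uODV
theorem uBLK : BLK_stmt := BLK
theorem uTW2 : TW2_stmt := TW2 uBLK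
theorem uTW3 : TW3_stmt := TW3 uBLK
theorem uKRW : KRW_stmt := KRW Pool.Agent.DR.AllDI.iA7 Pool.Agent.DR.AllDI.iA8
theorem uLSB : LSB_stmt :=
  LSB Pool.Agent.GR.All.dEXP Pool.Agent.GR.All.dIDM Pool.Agent.GR.All.dCVF Pool.Agent.GR.All.dCCI
    Pool.Agent.GR.All.dB2
theorem uLSA : LSA_stmt := LSA Pool.Agent.GR.All.dSCH Pool.Agent.GR.All.dB2
theorem uTUP : TUP_stmt :=
  TUP uLSA uLSB Pool.Agent.GR.All.dCVF Pool.Agent.GR.All.dCCI Pool.Agent.GR.All.dB2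
theorem uTEX : TEX_stmt := TEX uKRW uTUP
theorem uCHM : CHM_stmt := CHM uODV Pool.Agent.GR.All.dNM Pool.Agent.GR.All.dSN
theorem uCNJ : CNJ_stmt :=
  CNJ Pool.Agent.GR.All.dNM Pool.Agent.GR.All.dIF Pool.Agent.GR.All.dIRF Pool.Agent.GR.All.dIM
theorem uTOA : TOA_stmt := TOA Pool.Agent.GR.All.dTOT
theorem uPM : PM_stmt :=
  Pool.Agent.helper99.DC.PM Pool.Agent.GR.All.dNM Pool.Agent.GR.All.dSN Pool.Agent.GR.All.dIF
    Pool.Agent.GR.All.dOM Pool.Agent.GR.All.dIM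
theorem uCL0 : CL0_stmt := Pool.Agent.helper32.DC.CL0 uPM
theorem uCL1 : CL1_stmt :=
  Pool.Agent.helper48.DC.CL1 uPM Pool.Agent.GR.All.dNM Pool.Agent.GR.All.dSN Pool.Agent.GR.All.dIF
theorem uMB : MB_stmt := Pool.Agent.helper48.DC.MB
theorem uPGS : PGS_stmt := PGS uCL0 uCL1 uMB uTOA PGF
theorem uPGA : PGA_stmt :=
  PGA MOP uPGS Pool.Agent.DR.AllDI.iREx Pool.Agent.DR.AllDI.iSTx Pool.Agent.DR.AllDI.iFNx
theorem uPGU : PGU_stmt := PGU uPGS Pool.Agent.DR.AllDI.iREx Pool.Agent.DR.AllDI.iSTx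
theorem uZT0 : ZT0_stmt :=
  ZT0 Pool.Agent.GR.All.dIDM Pool.Agent.GR.All.dEIN Pool.Agent.GR.All.dBCL Pool.Agent.GR.All.dTI
theorem uZT3 : ZT3_stmt := ZT3 uZT0 Pool.Agent.DR.AllDI.iC3 Pool.Agent.DR.AllDI.iC9
theorem uZET3 : ZET3_stmt := ZET3 uZT3 Pool.Agent.DR.AllDI.iC3
theorem uFT2 : FT2_stmt :=
  FT2 uTEX uCHM uCNJ Pool.Agent.GR.All.dCLA uZET3 uZT0 Pool.Agent.GR.All.dB2

theorem uFRW : FRW_stmt := FRW uFRB uODV Pool.Agent.GR.All.dNM Pool.Agent.GR.All.dSN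
theorem uWCD : WCD_stmt := WCD uFRW uWCJ
theorem uLLB : LLB_stmt := LLB (LLR uFRW uWCD uWCJ) uWCJ Pool.Agent.DR.AllDI.iA2
theorem uLDB : LDB_stmt := LDB uODV uWCJ uWCD uLLB
theorem uUP2 : UP2_stmt :=
  UP2 (DBL uLDB uBLK) (BR2 uLDB uTW2) (BR3 uLDB uTW3) uFT2 uZT0 Pool.Agent.DR.AllDI.iC3
    Pool.Agent.GR.All.dTI

theorem uFINU : FINU_stmt := FINU uUP2 uPGU uPGA

end Pool.Agent.OB.AllU
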