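import Mathlib
import Pool.Agent.helper58.DC.Defs

/-!
# Dade's conjecture modulo 2 and 3: definitions for the statement

`Irr`, `IrrOn`, `omega`, `Induces`, `nrm`, `chainRel` are those of `helper58/DC/Defs.lean`. `B` is the block of the
irreducible character `χ` of `G`.
-/

set_option autoImplicit false

namespace Pool.Agent.M23

open Pool.Agent.helper58.DC

variable {G : Type} [Group G]

/-- `∑ (-1)^|C| k(N_G(C), B)`, the sum over one chain `C` of each conjugacy class of radical `p`-chains of `G`, where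
`k(N_G(C), B)` is the number of the irreducible characters `ψ` of `N_G(C)` with `b(ψ)^G = B`. -/
noncomputable def blockSum (p : ℕ) (M : Ideal (integralClosure ℤ ℂ)) (χ : G → ℂ) : ℤ :=
  ∑ᶠ c : Quot (chainRel (G := G) p), (-1) ^ (c.out.1.card - 1) *
    (Nat.card {ψ : G → ℂ // ψ ∈ IrrOn (nrm c.out.1) ∧ Induces M ψ χ} : ℤ)

/-- The central character of `B` at the class sum of `g` is not `0` modulo `M`. -/
def NonVan (M : Ideal (integralClosure ℤ ℂ)) (χ : G → ℂ) (g : G) : Prop :=
  ∀ a ∈ M, omega χ g ≠ ((a : integralClosure ℤ ℂ) : ℂ)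

/-- `D` is a defect group of `B`, in the form of Brauer's min-max theorem: `D` is a Sylow `p`-subgroup of `C_G(x)` for
a `p`-regular element `x` with `NonVan M χ x`, and `|D|` is smallest possible: for every `y ∈ G` with
`NonVan M χ y` the order of a Sylow `p`-subgroup of `C_G(y)` is at least `|D|`. -/
def DefectGroup (p : ℕ) (M : Ideal (integralClosure ℤ ℂ)) (χ : G → ℂ) (D : Subgroup G) : Prop :=
  ∃ x : G, ¬ p ∣ orderOf x ∧ NonVan M χ x ∧ D ≤ Subgroup.centralizer {x} ∧ IsPGroup p D ∧
    ¬ p ∣ D.relIndex (Subgroup.centralizer {x}) ∧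
    ∀ y : G, NonVan M χ y → ∃ Q : Subgroup G, Q ≤ Subgroup.centralizer {y} ∧ IsPGroup p Q ∧
      Nat.card D ≤ Nat.card Q

/-- The condition on `B`: some `g ∈ G` with `NonVan M χ g` is not an `e`-th power of an element of `G`, or some element
of the centre of a defect group `D` of `B` is not an `e`-th power of an element of `D`. -/
def Cond (p e : ℕ) (M : Ideal (integralClosure ℤ ℂ)) (χ : G → ℂ) : Prop :=
  (∃ g : G, NonVan M χ g ∧ ∀ y : G, y ^ e ≠ g) ∨
    ∃ D : Subgroup G, DefectGroup p M χ D ∧ ∃ z ∈ D, (∀ d ∈ D, z * d = d * z) ∧ ∀ y ∈ D, y ^ e ≠ z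

end Pool.Agent.M23
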