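import Pool.Agent.helper22.OB.AllU
import Pool.Agent.helper22.OB.SpecD
import Pool.Agent.helper22.OB.DefsR

/-!
# Project ob (MP_baa4d7_al): the final theorem, in terms of the central character and of a defect group
-/

set_option autoImplicit false

namespace Pool.Agent.OB

open Pool.Agent.helper58.DC Pool.Agent.DI Pool.Agent.GR Pool.Agent.M23

theorem Fin_nonVan {p : ℕ} {M : Ideal (integralClosure ℤ ℂ)} (hS : Setup p M) {G : Type} [Group G]
    [Finite G] {χ : G → ℂ} (hχ : χ ∈ Irr G) (g : G) : NonVan M χ g ↔ ¬ InM M (omega χ g) := by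
  have hint : IsIntegral ℤ (omega χ g) :=
    (Pool.Agent.DR.AllDI.iC3 G).2.2.2 ⊤ χ ((Pool.Agent.GR.All.dTI G χ).2 hχ) g
  constructor
  · intro h h1
    let a : integralClosure ℤ ℂ := ⟨omega χ g, hint⟩
    have h2 : InM M ((a : integralClosure ℤ ℂ) : ℂ) := h1
    exact h a (InM.mem hS h2) rfl
  · intro h a ha h1
    apply h
    rw [h1]
    exact InM.coe hS ha

theorem Fin_pp {p : ℕ} (hp : p.Prime) {G : Type} [Group G] [Finite G] {D C : Subgroup G}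
    (hDC : D ≤ C) (hD : IsPGroup p D) : Nat.card D ≤ pp p C ∧
      (¬ p ∣ D.relIndex C → Nat.card D = pp p C) := by
  have : Fact p.Prime := ⟨hp⟩
  obtain ⟨k, hk⟩ := IsPGroup.iff_card.1 hD
  have h1 : Nat.card D * D.relIndex C = Nat.card C := by
    have h2 := Subgroup.relIndex_mul_relIndex (⊥ : Subgroup G) D C bot_le hDC
    rw [Subgroup.relIndex_bot_left, Subgroup.relIndex_bot_left] at h2
    exact h2
  have hC0 : Nat.card C ≠ 0 := Nat.card_pos.ne'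
  have hr0 : D.relIndex C ≠ 0 := by
    intro h
    rw [h, mul_zero] at h1
    exact hC0 h1.symm
  have h3 : padicValNat p (Nat.card C) = k + padicValNat p (D.relIndex C) := by
    rw [← h1, hk, padicValNat.mul (pow_ne_zero _ hp.ne_zero) hr0, padicValNat.prime_pow]
  constructor
  · unfold pp
    rw [hk, h3]
    exact Nat.pow_le_pow_right hp.pos (Nat.le_add_right _ _)
  · intro h
    unfold pp
    rw [hk, h3, padicValNat.eq_zero_of_not_dvd h, add_zero]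

theorem Fin_defAt {p : ℕ} {M : Ideal (integralClosure ℤ ℂ)} (hS : Setup p M) {G : Type} [Group G]
    [Finite G] {χ : G → ℂ} (hχ : χ ∈ Irr G) {D : Subgroup G} (hD : DefectGroup p M χ D) :
    ∃ x : G, DefAt p M χ D x := by
  obtain ⟨x, h1, h2, h3, h4, h5, h6⟩ := hD
  refine ⟨x, h1, (Fin_nonVan hS hχ x).1 h2, h3, h4, (Fin_pp hS.pr h3 h4).2 h5, fun y hy => ?_⟩
  obtain ⟨Q, h7, h8, h9⟩ := h6 y ((Fin_nonVan hS hχ y).2 hy)
  exact h9.trans (Fin_pp hS.pr h7 h8).1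

theorem Fin_main (hDG4 : DG4_stmt) (p e : ℕ) (hpe : p = 2 ∧ e = 4 ∨ p = 3 ∧ e = 3)
    (M : Ideal (integralClosure ℤ ℂ)) (hS : Setup p M) (G : Type) [Group G] [Finite G]
    (hG : IsOp p (⊤ : Subgroup G) ⊥) (χ : G → ℂ) (hχ : χ ∈ Irr G) (h : Cond p e M χ) :
    (p : ℤ) ∣ blockSum p M χ ∧
      ∀ (E A : Type) [Group E] [Group A] [Finite E] (X : Extension G E A),
      (∀ U : Subgroup A, IsPGroup p U →
        (p : ℤ) ∣ ∑ᶠ d : ℤ, ∑ᶠ V : {V : Subgroup A // U ≤ V}, altSum X p M χ d V.1) ∧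
      (IsPGroup p A → ∀ U : Subgroup A, (p : ℤ) ∣ ∑ᶠ d : ℤ, altSum X p M χ d U) := by
  refine AllU.uFINU p e hpe M hS G hG χ hχ ?_
  rcases h with ⟨g, hg, hy⟩ | ⟨D, hD, hz⟩
  · exact ⟨g, (Fin_nonVan hS hχ g).1 hg, hy⟩
  · obtain ⟨x, hx⟩ := Fin_defAt hS hχ hD
    have he : ∃ a : ℕ, e = p ^ a := by
      rcases hpe with ⟨rfl, rfl⟩ | ⟨rfl, rfl⟩
      · exact ⟨2, by norm_num⟩
      · exact ⟨1, by norm_num⟩
    obtain ⟨a, rfl⟩ := he
    obtain ⟨z, hz1, hz2, hz3⟩ := hz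
    obtain ⟨h4, h5⟩ := hDG4 p a M hS G χ hχ D x hx z hz1 hz2 hz3
    exact ⟨z * x, h4, h5⟩

end Pool.Agent.OB
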