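import Pool.Agent.helper22.OB.All

/-!
# Project ob (MP_baa4d7_al): the sums over the subgroups with a given intersection with a `p`-subgroup
-/

set_option autoImplicit false

namespace Pool.Agent.OB

open Pool.Agent.helper58.DC Pool.Agent.DI Pool.Agent.GR Pool.Agent.M23

open scoped Classical in
theorem Uni_swap {A : Type} [Group A] [Fintype (Subgroup A)] (S : ℤ → Subgroup A → ℤ)
    (hS : ∀ V : Subgroup A, {d : ℤ | S d V ≠ 0}.Finite) (Q : Subgroup A → Prop) :
    ∑ᶠ d : ℤ, ∑ᶠ V : {V : Subgroup A // Q V}, S d V.1 =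
      ∑ V ∈ Finset.univ.filter Q, ∑ᶠ d : ℤ, S d V := by
  have h1 : ∀ d : ℤ, ∑ᶠ V : {V : Subgroup A // Q V}, S d V.1 = ∑ V ∈ Finset.univ.filter Q, S d V := by
    intro d
    rw [finsum_eq_sum_of_fintype]
    rw [Finset.sum_subtype (Finset.univ.filter Q) (p := Q) (fun x => by simp) (fun V => S d V)]
  rw [finsum_congr h1]
  exact finsum_sum_comm (Finset.univ.filter Q) (fun d V => S d V) (fun V _ => hS V)

open scoped Classical in
theorem Uni_moeb {A : Type} [Group A] [Fintype (Subgroup A)] (T : Subgroup A → ℤ) (p : ℕ)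
    (W : Subgroup A) (hW : IsPGroup p W)
    (h : ∀ U : Subgroup A, IsPGroup p U →
      (p : ℤ) ∣ ∑ V ∈ Finset.univ.filter (fun V : Subgroup A => U ≤ V), T V) :
    ∀ U : Subgroup A, U ≤ W →
      (p : ℤ) ∣ ∑ V ∈ Finset.univ.filter (fun V : Subgroup A => V ⊓ W = U), T V := by
  intro U
  induction U using WellFoundedGT.induction with
  | ind U ih =>
    intro hU
    have h1 := h U (hW.to_le hU)
    have hmap : ∀ V ∈ Finset.univ.filter (fun V : Subgroup A => U ≤ V),
        V ⊓ W ∈ Finset.univ.filter (fun V : Subgroup A => U ≤ V ∧ V ≤ W) := by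
      intro V hV
      simp only [Finset.mem_filter, Finset.mem_univ, true_and] at hV ⊢
      exact ⟨le_inf hV hU, inf_le_right⟩
    have h2 := Finset.sum_fiberwise_of_maps_to hmap (fun V => T V)
    have hUmem : U ∈ Finset.univ.filter (fun V : Subgroup A => U ≤ V ∧ V ≤ W) := by
      simp only [Finset.mem_filter, Finset.mem_univ, true_and]
      exact ⟨le_rfl, hU⟩
    rw [← Finset.add_sum_erase _ _ hUmem] at h2
    have hf : ∀ U' : Subgroup A, U ≤ U' →
        ((Finset.univ.filter (fun V : Subgroup A => U ≤ V)).filter (fun V => V ⊓ W = U')) =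
          Finset.univ.filter (fun V : Subgroup A => V ⊓ W = U') := by
      intro U' hU'
      ext V
      simp only [Finset.mem_filter, Finset.mem_univ, true_and]
      constructor
      · rintro ⟨-, h3⟩
        exact h3
      · intro h3
        refine ⟨?_, h3⟩
        have h4 : U ≤ V ⊓ W := h3 ▸ hU'
        exact h4.trans inf_le_left
    have h5 : (p : ℤ) ∣ ∑ U' ∈ (Finset.univ.filter (fun V : Subgroup A => U ≤ V ∧ V ≤ W)).erase U,
        ∑ V ∈ (Finset.univ.filter (fun V : Subgroup A => U ≤ V)).filter (fun V => V ⊓ W = U'), T V := by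
      apply Finset.dvd_sum
      intro U' hU'
      simp only [Finset.mem_erase, Finset.mem_filter, Finset.mem_univ, true_and] at hU'
      obtain ⟨hne, hle, hle2⟩ := hU'
      rw [hf U' hle]
      exact ih U' (lt_of_le_of_ne hle (Ne.symm hne)) hle2
    rw [← h2] at h1
    have h6 := (dvd_add_left h5).1 h1
    rw [hf U le_rfl] at h6
    exact h6

end Pool.Agent.OB

namespace Pool.Agent.OB.All

open Pool.Agent.helper58.DC Pool.Agent.DI Pool.Agent.GR Pool.Agent.OB Pool.Agent.M23

theorem mainW (p e : ℕ) (hpe : p = 2 ∧ e = 4 ∨ p = 3 ∧ e = 3)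
    (M : Ideal (integralClosure ℤ ℂ)) (hM : M.IsMaximal) (hp : (p : integralClosure ℤ ℂ) ∈ M)
    (G : Type) [Group G] [Finite G] (hG : IsOp p (⊤ : Subgroup G) ⊥) (χ : G → ℂ) (hχ : χ ∈ Irr G)
    (h : Cond p e M χ) (E A : Type) [Group E] [Group A] [Finite E] (X : Extension G E A)
    (W : Subgroup A) (hW : IsPGroup p W) (U : Subgroup A) (hU : U ≤ W) :
    (p : ℤ) ∣ ∑ᶠ d : ℤ, ∑ᶠ V : {V : Subgroup A // V ⊓ W = U}, altSum X p M χ d V.1 := by
  classical
  have : Finite A := Finite.of_surjective X.proj X.proj_surjective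
  have : Fintype (Subgroup A) := Fintype.ofFinite _
  have hfin : ∀ V : Subgroup A, {d : ℤ | altSum X p M χ d V ≠ 0}.Finite := fun V =>
    Pool.Agent.DR.AllDI.iFNx G E A X p M χ V
  have h1 := main p e hpe M hM hp G hG χ hχ h
  rw [Uni_swap (fun d V => altSum X p M χ d V) hfin (fun V : Subgroup A => V ⊓ W = U)]
  have h2 : ∀ U : Subgroup A, IsPGroup p U →
      (p : ℤ) ∣ ∑ V ∈ Finset.univ.filter (fun V : Subgroup A => U ≤ V),
        ∑ᶠ d : ℤ, altSum X p M χ d V := by
    intro U' hU'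
    have h3 := (h1.2 E A X).1 U' hU'
    rw [Uni_swap (fun d V => altSum X p M χ d V) hfin (fun V : Subgroup A => U' ≤ V)] at h3
    exact h3
  exact Uni_moeb (fun V => ∑ᶠ d : ℤ, altSum X p M χ d V) p W hW h2 U hU

end Pool.Agent.OB.All
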